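import Mathlib

set_option autoImplicit false

/-!
Formations of finite groups: closure lemmas, prime normal subgroups, and a family of
quotient-functorial laws giving formations.
-/

namespace Pool.Agent.Helper8Form

open Subgroup

/-- The four axioms of a formation of finite groups, for a class of groups in `Type`. -/
structure IsForm (F : ∀ (H : Type) [Group H], Prop) : Prop where
  fin : ∀ (H : Type) [Group H], F H → Finite H
  iso : ∀ (H K : Type) [Group H] [Group K], (H ≃* K) → F H → F K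
  quot : ∀ (H : Type) [Group H] (N : Subgroup H) [N.Normal], F H → F (H ⧸ N)
  sub : ∀ (H : Type) [Group H] (N₁ N₂ : Subgroup H) [N₁.Normal] [N₂.Normal],
    F (H ⧸ N₁) → F (H ⧸ N₂) → F (H ⧸ (N₁ ⊓ N₂))

lemma IsForm.surj {F : ∀ (H : Type) [Group H], Prop} (hF : IsForm F) {X Y : Type} [Group X]
    [Group Y] (f : X →* Y) (hf : Function.Surjective f) (h : F X) : F Y :=
  hF.iso _ _ (QuotientGroup.quotientKerEquivOfSurjective f hf) (hF.quot X f.ker h)

lemma IsForm.subdirect {F : ∀ (H : Type) [Group H], Prop} (hF : IsForm F) {X Y₁ Y₂ : Type}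
    [Group X] [Group Y₁] [Group Y₂] (f₁ : X →* Y₁) (f₂ : X →* Y₂)
    (h₁ : Function.Surjective f₁) (h₂ : Function.Surjective f₂) (hk : f₁.ker ⊓ f₂.ker = ⊥)
    (hY₁ : F Y₁) (hY₂ : F Y₂) : F X := by
  have a₁ : F (X ⧸ f₁.ker) :=
    hF.iso _ _ (QuotientGroup.quotientKerEquivOfSurjective f₁ h₁).symm hY₁
  have a₂ : F (X ⧸ f₂.ker) :=
    hF.iso _ _ (QuotientGroup.quotientKerEquivOfSurjective f₂ h₂).symm hY₂
  have a₃ := hF.sub X f₁.ker f₂.ker a₁ a₂
  exact hF.iso _ _ ((QuotientGroup.quotientMulEquivOfEq hk).trans QuotientGroup.quotientBot) a₃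

/-- Formation axioms from closure under surjective images and subdirect products. -/
lemma isForm_of {F : ∀ (H : Type) [Group H], Prop}
    (fin : ∀ (H : Type) [Group H], F H → Finite H)
    (surj : ∀ (X Y : Type) [Group X] [Group Y] (f : X →* Y), Function.Surjective f → F X → F Y)
    (subd : ∀ (X Y₁ Y₂ : Type) [Group X] [Group Y₁] [Group Y₂] (f₁ : X →* Y₁) (f₂ : X →* Y₂),
      Function.Surjective f₁ → Function.Surjective f₂ → f₁.ker ⊓ f₂.ker = ⊥ → F Y₁ → F Y₂ → F X) :
    IsForm F where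
  fin := fin
  iso := fun H K _ _ e h => surj H K e.toMonoidHom e.surjective h
  quot := fun H _ N _ h => surj H (H ⧸ N) (QuotientGroup.mk' N) (QuotientGroup.mk'_surjective N) h
  sub := by
    intro H _ N₁ N₂ _ _ h₁ h₂
    have l₁ : N₁ ⊓ N₂ ≤ N₁.comap (MonoidHom.id H) := by
      intro x hx; exact hx.1
    have l₂ : N₁ ⊓ N₂ ≤ N₂.comap (MonoidHom.id H) := by
      intro x hx; exact hx.2
    refine subd (H ⧸ (N₁ ⊓ N₂)) (H ⧸ N₁) (H ⧸ N₂)
      (QuotientGroup.map (N₁ ⊓ N₂) N₁ (MonoidHom.id H) l₁)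
      (QuotientGroup.map (N₁ ⊓ N₂) N₂ (MonoidHom.id H) l₂) ?_ ?_ ?_ h₁ h₂
    · intro y
      obtain ⟨x, rfl⟩ := QuotientGroup.mk_surjective y
      exact ⟨(x : H ⧸ (N₁ ⊓ N₂)), rfl⟩
    · intro y
      obtain ⟨x, rfl⟩ := QuotientGroup.mk_surjective y
      exact ⟨(x : H ⧸ (N₁ ⊓ N₂)), rfl⟩
    · rw [eq_bot_iff]
      intro y hy
      obtain ⟨x, rfl⟩ := QuotientGroup.mk_surjective y
      obtain ⟨hy₁, hy₂⟩ := hy
      have e₁ : ((x : H) : H ⧸ N₁) = 1 := hy₁
      have e₂ : ((x : H) : H ⧸ N₂) = 1 := hy₂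
      rw [QuotientGroup.eq_one_iff] at e₁ e₂
      rw [Subgroup.mem_bot, QuotientGroup.eq_one_iff]
      exact ⟨e₁, e₂⟩

/-- A prime normal subgroup. -/
def IsPrimeN {X : Type} [Group X] (C : Subgroup X) : Prop :=
  C.Normal ∧ C ≠ ⊤ ∧ ∀ T₁ T₂ : Subgroup X, T₁.Normal → T₂.Normal → ⁅T₁, T₂⁆ ≤ C →
    T₁ ≤ C ∨ T₂ ≤ C

/-- The intersection of all normal subgroups not contained in `C`. -/
def TC {X : Type} [Group X] (C : Subgroup X) : Subgroup X := sInf {T | T.Normal ∧ ¬ T ≤ C}

section basics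

variable {X Y : Type} [Group X] [Group Y]

lemma TC_le {C T : Subgroup X} (hT : T.Normal) (h : ¬ T ≤ C) : TC C ≤ T := sInf_le ⟨hT, h⟩

lemma TC_normal (C : Subgroup X) : (TC C).Normal := by
  refine ⟨fun n hn g => ?_⟩
  rw [TC, Subgroup.mem_sInf] at hn ⊢
  intro T hT
  exact hT.1.conj_mem n (hn T hT) g

lemma TC_not_le [Finite X] {C : Subgroup X} (hC : IsPrimeN C) : ¬ TC C ≤ C := by
  obtain ⟨T₀, hT₀, hmin⟩ := Set.Finite.exists_minimal (s := {T : Subgroup X | T.Normal ∧ ¬ T ≤ C})
    (Set.toFinite _) ⟨⊤, inferInstance, fun h => hC.2.1 (top_le_iff.mp h)⟩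
  have hle : T₀ ≤ TC C := by
    apply le_sInf
    intro T hT
    have hn₀ := hT₀.1
    have hn := hT.1
    have : T₀ ⊓ T ∈ {T : Subgroup X | T.Normal ∧ ¬ T ≤ C} := by
      refine ⟨inferInstance, fun h => ?_⟩
      rcases hC.2.2 T₀ T hn₀ hn ((Subgroup.commutator_le_inf T₀ T).trans h) with h' | h'
      · exact hT₀.2 h'
      · exact hT.2 h'
    exact (hmin this inf_le_left).trans inf_le_right
  exact fun h => hT₀.2 (hle.trans h)

lemma map_comap_eq {f : X →* Y} (hf : Function.Surjective f) (C : Subgroup Y) :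
    (C.comap f).map f = C := Subgroup.map_comap_eq_self_of_surjective hf C

lemma comap_map_eq {f : X →* Y} {C : Subgroup X} (hC : f.ker ≤ C) :
    (C.map f).comap f = C := Subgroup.comap_map_eq_self hC

lemma IsPrimeN.comap {f : X →* Y} (hf : Function.Surjective f) {C : Subgroup Y}
    (hC : IsPrimeN C) : IsPrimeN (C.comap f) := by
  obtain ⟨hn, hne, hp⟩ := hC
  refine ⟨hn.comap f, ?_, ?_⟩
  · intro h
    apply hne
    rw [← map_comap_eq hf C, h, Subgroup.map_top_of_surjective f hf]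
  · intro T₁ T₂ h₁ h₂ h
    have h' : ⁅T₁.map f, T₂.map f⁆ ≤ C := by
      rw [← Subgroup.map_commutator, Subgroup.map_le_iff_le_comap]
      exact h
    rcases hp _ _ (h₁.map f hf) (h₂.map f hf) h' with h'' | h''
    · left; rwa [Subgroup.map_le_iff_le_comap] at h''
    · right; rwa [Subgroup.map_le_iff_le_comap] at h''

lemma IsPrimeN.map {f : X →* Y} (hf : Function.Surjective f) {C : Subgroup X}
    (hC : IsPrimeN C) (hk : f.ker ≤ C) : IsPrimeN (C.map f) := by
  obtain ⟨hn, hne, hp⟩ := hC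
  refine ⟨hn.map f hf, ?_, ?_⟩
  · intro h
    apply hne
    rw [← comap_map_eq hk, h, Subgroup.comap_top]
  · intro T₁ T₂ h₁ h₂ h
    have h' : ⁅T₁.comap f, T₂.comap f⁆ ≤ C := by
      rw [← comap_map_eq hk, ← Subgroup.map_le_iff_le_comap, Subgroup.map_commutator,
        map_comap_eq hf, map_comap_eq hf]
      exact h
    rcases hp _ _ (h₁.comap f) (h₂.comap f) h' with h'' | h''
    · left; rw [← map_comap_eq hf T₁]; exact Subgroup.map_mono h''
    · right; rw [← map_comap_eq hf T₂]; exact Subgroup.map_mono h''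

lemma TC_map {f : X →* Y} (hf : Function.Surjective f) {C : Subgroup X}
    (hX : ¬ TC C ≤ C) (hk : f.ker ≤ C) : TC (C.map f) = (TC C).map f := by
  apply le_antisymm
  · apply TC_le ((TC_normal C).map f hf)
    intro h
    apply hX
    rw [Subgroup.map_le_iff_le_comap, comap_map_eq hk] at h
    exact h
  · apply le_sInf
    rintro T ⟨hT, hT'⟩
    rw [Subgroup.map_le_iff_le_comap]
    apply TC_le (hT.comap f)
    intro h
    apply hT'
    rw [← map_comap_eq hf T]
    exact Subgroup.map_mono h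

end basics

/-- The primes `C` such that no `x i` lies in `C ⊔ TC C`. -/
def JJ {X : Type} [Group X] {n : ℕ} (x : Fin n → X) : Set (Subgroup X) :=
  {C | IsPrimeN C ∧ ∀ i, x i ∉ C ⊔ TC C}

/-- Choice functions picking an element of `TC C` which is an involution modulo `C`. -/
def GoodT {X : Type} [Group X] (t : Subgroup X → X) : Prop :=
  ∀ C, IsPrimeN C → t C ∈ TC C ∧ t C ∉ C ∧ t C * t C ∈ C

/-- The class of finite groups satisfying the `n`-th law. -/
structure InC (n : ℕ) (X : Type) [Group X] : Prop where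
  fin : Finite X
  ex : ∀ C : Subgroup X, IsPrimeN C → ∃ t ∈ TC C, t ∉ C ∧ t * t ∈ C
  law : ∀ (x : Fin n → X) (t : Subgroup X → X), GoodT t → ∀ l : List (Subgroup X), l.Nodup →
    (∀ C, C ∈ l ↔ C ∈ JJ x) → (l.map (fun C => t C * t C)).prod = 1

section law

variable {X Y : Type} [Group X] [Group Y]

lemma mem_JJ_map {n : ℕ} [Finite X] {f : X →* Y} (hf : Function.Surjective f) (x : Fin n → X)
    {C : Subgroup X} (hk : f.ker ≤ C) :
    C.map f ∈ JJ (fun i => f (x i)) ↔ C ∈ JJ x := by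
  have key : IsPrimeN C → ∀ a : X, f a ∈ C.map f ⊔ TC (C.map f) ↔ a ∈ C ⊔ TC C := by
    intro hC a
    rw [TC_map hf (TC_not_le hC) hk, ← Subgroup.map_sup, ← Subgroup.mem_comap,
      Subgroup.comap_map_eq_self (hk.trans le_sup_left)]
  constructor
  · rintro ⟨h₁, h₂⟩
    have hC : IsPrimeN C := by
      have := IsPrimeN.comap hf h₁
      rwa [comap_map_eq hk] at this
    exact ⟨hC, fun i h => h₂ i ((key hC _).mpr h)⟩
  · rintro ⟨h₁, h₂⟩
    exact ⟨h₁.map hf hk, fun i h => h₂ i ((key h₁ _).mp h)⟩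

lemma prod_filter_eq {M α : Type*} [Monoid M] (p : α → Prop) [DecidablePred p] (g : α → M)
    (l : List α) (h : ∀ a ∈ l, ¬ p a → g a = 1) :
    ((l.filter p).map g).prod = (l.map g).prod := by
  induction l with
  | nil => rfl
  | cons a l ih =>
    have ih' := ih (fun b hb => h b (List.mem_cons_of_mem _ hb))
    by_cases hp : p a
    · rw [List.filter_cons_of_pos (by simpa using hp)]
      simp only [List.map_cons, List.prod_cons, ih']
    · rw [List.filter_cons_of_neg (by simpa using hp)]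
      simp only [List.map_cons, List.prod_cons, ih', h a List.mem_cons_self hp, one_mul]

/-- The law is preserved under surjective images. -/
lemma InC.surj {n : ℕ} (h : InC n X) (f : X →* Y) (hf : Function.Surjective f) : InC n Y := by
  classical
  have := h.fin
  refine ⟨Finite.of_surjective f hf, ?_, ?_⟩
  · intro C' hC'
    have hC := hC'.comap hf
    obtain ⟨t, ht, htC, htt⟩ := h.ex _ hC
    have hk : f.ker ≤ C'.comap f := by
      intro a ha
      rw [Subgroup.mem_comap, MonoidHom.mem_ker.mp ha]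
      exact one_mem _
    have e := TC_map hf (TC_not_le hC) hk
    rw [map_comap_eq hf] at e
    refine ⟨f t, ?_, htC, ?_⟩
    · rw [e]; exact Subgroup.mem_map_of_mem f ht
    · rw [← map_mul]; exact htt
  · intro y t' ht' l' hl' hmem
    choose g hg using hf
    have hf : Function.Surjective f := fun b => ⟨g b, hg b⟩
    have hk : ∀ C' : Subgroup Y, f.ker ≤ C'.comap f := by
      intro C' a ha
      rw [Subgroup.mem_comap, MonoidHom.mem_ker.mp ha]
      exact one_mem _
    have hex : ∀ C : Subgroup X, IsPrimeN C → ∃ s, s ∈ TC C ∧ s ∉ C ∧ s * s ∈ C ∧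
        (f.ker ≤ C → f s = t' (C.map f)) := by
      intro C hC
      by_cases hkC : f.ker ≤ C
      · obtain ⟨a₁, a₂, a₃⟩ := ht' _ (hC.map hf hkC)
        rw [TC_map hf (TC_not_le hC) hkC] at a₁
        obtain ⟨s, hs, hs'⟩ := a₁
        refine ⟨s, hs, ?_, ?_, fun _ => hs'⟩
        · intro hsC
          exact a₂ (hs' ▸ Subgroup.mem_map_of_mem f hsC)
        · rw [← comap_map_eq hkC, Subgroup.mem_comap, map_mul, hs']
          exact a₃
      · obtain ⟨s, h₁, h₂, h₃⟩ := h.ex C hC
        exact ⟨s, h₁, h₂, h₃, fun h => absurd h hkC⟩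
    choose! t ht using hex
    set x : Fin n → X := fun i => g (y i) with hx
    have hfx : (fun i => f (x i)) = y := by
      funext i; exact hg (y i)
    set R : Set (Subgroup X) := {C | C ∈ JJ x ∧ ¬ f.ker ≤ C} with hR
    have hRfin : R.Finite := Set.toFinite _
    set l : List (Subgroup X) := l'.map (Subgroup.comap f) ++ hRfin.toFinset.toList with hl
    have hinj : Function.Injective (Subgroup.comap f) := Subgroup.comap_injective hf
    have hnod : l.Nodup := by
      rw [hl, List.nodup_append']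
      refine ⟨hl'.map hinj, Finset.nodup_toList _, ?_⟩
      intro C hC₁ hC₂
      rw [List.mem_map] at hC₁
      obtain ⟨C', -, rfl⟩ := hC₁
      rw [Finset.mem_toList, Set.Finite.mem_toFinset] at hC₂
      exact hC₂.2 (hk C')
    have hmeml : ∀ C, C ∈ l ↔ C ∈ JJ x := by
      intro C
      rw [hl, List.mem_append, List.mem_map, Finset.mem_toList, Set.Finite.mem_toFinset]
      constructor
      · rintro (⟨C', hC', rfl⟩ | hC)
        · rw [hmem, ← hfx, ← map_comap_eq hf C', mem_JJ_map hf x (hk C')] at hC'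
          exact hC'
        · exact hC.1
      · intro hC
        by_cases hkC : f.ker ≤ C
        · left
          refine ⟨C.map f, ?_, comap_map_eq hkC⟩
          rw [hmem, ← hfx, mem_JJ_map hf x hkC]
          exact hC
        · right
          exact ⟨hC, hkC⟩
    have hgood : GoodT t := fun C hC => ⟨(ht C hC).1, (ht C hC).2.1, (ht C hC).2.2.1⟩
    have hprod := h.law x t hgood l hnod hmeml
    have hprod' := congrArg f hprod
    rw [map_one, hl, List.map_append, List.prod_append, map_mul] at hprod'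
    have e₂ : f ((hRfin.toFinset.toList.map (fun C => t C * t C)).prod) = 1 := by
      rw [map_list_prod, List.map_map]
      apply List.prod_eq_one
      intro b hb
      rw [List.mem_map] at hb
      obtain ⟨C, hC, rfl⟩ := hb
      rw [Finset.mem_toList, Set.Finite.mem_toFinset] at hC
      have hn : f.ker.Normal := inferInstance
      have h₁ : t C ∈ f.ker := TC_le hn hC.2 (ht C hC.1.1).1
      have h₂ : f (t C) = 1 := h₁
      simp [h₂]
    rw [e₂, mul_one, map_list_prod, List.map_map, List.map_map] at hprod'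
    rw [← hprod']
    congr 1
    apply List.map_congr_left
    intro C' hC'
    have hC'p : IsPrimeN C' := ((hmem C').mp hC').1
    have := (ht _ (hC'p.comap hf)).2.2.2 (hk C')
    rw [map_comap_eq hf] at this
    simp [this]

/-- The value of the law maps to `1` in every quotient satisfying the law. -/
lemma law_image {n : ℕ} [Finite X] (f : X →* Y) (hf : Function.Surjective f) (hY : InC n Y)
    (x : Fin n → X) (t : Subgroup X → X) (ht : GoodT t) (l : List (Subgroup X)) (hl : l.Nodup)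
    (hmem : ∀ C, C ∈ l ↔ C ∈ JJ x) : f ((l.map (fun C => t C * t C)).prod) = 1 := by
  classical
  have hk : ∀ C' : Subgroup Y, f.ker ≤ C'.comap f := by
    intro C' a ha
    rw [Subgroup.mem_comap, MonoidHom.mem_ker.mp ha]
    exact one_mem _
  rw [map_list_prod, List.map_map, ← prod_filter_eq (fun C => f.ker ≤ C)]
  swap
  · intro C hC hkC
    have hn : f.ker.Normal := inferInstance
    have h₁ : t C ∈ f.ker := TC_le hn hkC (ht C ((hmem C).mp hC).1).1
    have h₂ : f (t C) = 1 := h₁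
    simp [h₂]
  set l₁ := l.filter (fun C => f.ker ≤ C) with hl₁
  have hl₁k : ∀ C ∈ l₁, f.ker ≤ C := by
    intro C hC
    rw [hl₁, List.mem_filter] at hC
    simpa using hC.2
  set t' : Subgroup Y → Y := fun C' => f (t (C'.comap f)) with ht'
  have hgood : GoodT t' := by
    intro C' hC'
    have hC := hC'.comap hf
    obtain ⟨a₁, a₂, a₃⟩ := ht _ hC
    have e := TC_map hf (TC_not_le hC) (hk C')
    rw [map_comap_eq hf] at e
    refine ⟨?_, a₂, ?_⟩
    · rw [e]; exact Subgroup.mem_map_of_mem f a₁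
    · rw [ht', ← map_mul]; exact a₃
  have hnod : (l₁.map (Subgroup.map f)).Nodup := by
    rw [List.nodup_map_iff_inj_on (hl.filter _)]
    intro C₁ h₁ C₂ h₂ h
    rw [← comap_map_eq (hl₁k C₁ h₁), h, comap_map_eq (hl₁k C₂ h₂)]
  have hmem' : ∀ C', C' ∈ l₁.map (Subgroup.map f) ↔ C' ∈ JJ (fun i => f (x i)) := by
    intro C'
    rw [List.mem_map]
    constructor
    · rintro ⟨C, hC, rfl⟩
      rw [mem_JJ_map hf x (hl₁k C hC), ← hmem]
      exact (List.mem_filter.mp hC).1
    · intro hC'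
      rw [← map_comap_eq hf C', mem_JJ_map hf x (hk C'), ← hmem] at hC'
      refine ⟨C'.comap f, ?_, map_comap_eq hf C'⟩
      rw [hl₁, List.mem_filter]
      exact ⟨hC', by simpa using hk C'⟩
  have := hY.law _ t' hgood _ hnod hmem'
  rw [List.map_map] at this
  rw [← this]
  congr 1
  apply List.map_congr_left
  intro C hC
  simp [ht', comap_map_eq (hl₁k C hC)]

/-- The law is preserved under subdirect products. -/
lemma InC.subdirect {n : ℕ} {Y₁ Y₂ : Type} [Group Y₁] [Group Y₂] (f₁ : X →* Y₁) (f₂ : X →* Y₂)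
    (hf₁ : Function.Surjective f₁) (hf₂ : Function.Surjective f₂) (hk : f₁.ker ⊓ f₂.ker = ⊥)
    (hY₁ : InC n Y₁) (hY₂ : InC n Y₂) : InC n X := by
  have fin₁ := hY₁.fin
  have fin₂ := hY₂.fin
  have hX : Finite X := by
    refine Finite.of_injective (fun x => (f₁ x, f₂ x)) ?_
    intro a b hab
    have hab' : f₁ a = f₁ b ∧ f₂ a = f₂ b := by simpa using hab
    have : a * b⁻¹ ∈ f₁.ker ⊓ f₂.ker := by
      refine Subgroup.mem_inf.mpr ⟨?_, ?_⟩
      · rw [MonoidHom.mem_ker, map_mul, map_inv, hab'.1, mul_inv_cancel]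
      · rw [MonoidHom.mem_ker, map_mul, map_inv, hab'.2, mul_inv_cancel]
    rw [hk, Subgroup.mem_bot] at this
    exact mul_inv_eq_one.mp this
  refine ⟨hX, ?_, ?_⟩
  · intro C hC
    have main : ∀ {Y : Type} [Group Y] (f : X →* Y), Function.Surjective f → InC n Y →
        f.ker ≤ C → ∃ t ∈ TC C, t ∉ C ∧ t * t ∈ C := by
      intro Y _ f hf hY hkC
      obtain ⟨t', h₁, h₂, h₃⟩ := hY.ex _ (hC.map hf hkC)
      rw [TC_map hf (TC_not_le hC) hkC] at h₁
      obtain ⟨t, ht, rfl⟩ := h₁
      refine ⟨t, ht, fun h => h₂ (Subgroup.mem_map_of_mem f h), ?_⟩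
      rw [← comap_map_eq hkC, Subgroup.mem_comap, map_mul]
      exact h₃
    have h₁ : f₁.ker ≤ C ∨ f₂.ker ≤ C := by
      apply hC.2.2 _ _ inferInstance inferInstance
      refine (Subgroup.commutator_le_inf _ _).trans ?_
      rw [hk]
      exact bot_le
    rcases h₁ with h₁ | h₁
    · exact main f₁ hf₁ hY₁ h₁
    · exact main f₂ hf₂ hY₂ h₁
  · intro x t ht l hl hmem
    have : (l.map (fun C => t C * t C)).prod ∈ f₁.ker ⊓ f₂.ker :=
      ⟨law_image f₁ hf₁ hY₁ x t ht l hl hmem, law_image f₂ hf₂ hY₂ x t ht l hl hmem⟩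
    rwa [hk, Subgroup.mem_bot] at this

end law

/-- Groups all of whose subnormal subgroups satisfy the `n`-th law. -/
def InD (n : ℕ) (X : Type) [Group X] : Prop := ∀ Y : Subgroup X, Y.IsSubnormal → InC n Y

lemma InD.normal {n : ℕ} {X : Type} [Group X] (h : InD n X) (N : Subgroup X) (hN : N.Normal) :
    InD n N := by
  intro Y hY
  have h₁ : (Y.map N.subtype).IsSubnormal := hY.trans' hN.isSubnormal
  have e : (Y.map N.subtype) ≃* Y :=
    (Y.equivMapOfInjective N.subtype N.subtype_injective).symm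
  exact (h _ h₁).surj e.toMonoidHom e.surjective

lemma InD.surj {n : ℕ} {X Y : Type} [Group X] [Group Y] (h : InD n X) (f : X →* Y)
    (hf : Function.Surjective f) : InD n Y := by
  intro N hN
  have h₁ := h _ (hN.comap f)
  refine h₁.surj (f.subgroupComap N) ?_
  rintro ⟨y, hy⟩
  obtain ⟨x, rfl⟩ := hf y
  exact ⟨⟨x, hy⟩, rfl⟩

lemma InD.subdirect {n : ℕ} {X Y₁ Y₂ : Type} [Group X] [Group Y₁] [Group Y₂]
    (f₁ : X →* Y₁) (f₂ : X →* Y₂)
    (hf₁ : Function.Surjective f₁) (hf₂ : Function.Surjective f₂) (hk : f₁.ker ⊓ f₂.ker = ⊥)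
    (hY₁ : InD n Y₁) (hY₂ : InD n Y₂) : InD n X := by
  intro N hN
  refine InC.subdirect (f₁.subgroupMap N) (f₂.subgroupMap N) (f₁.subgroupMap_surjective N)
    (f₂.subgroupMap_surjective N) ?_ (hY₁ _ (hN.map hf₁)) (hY₂ _ (hN.map hf₂))
  rw [eq_bot_iff]
  rintro ⟨a, ha⟩ ⟨h₁, h₂⟩
  have e₁ : f₁ a = 1 := congrArg Subtype.val h₁
  have e₂ : f₂ a = 1 := congrArg Subtype.val h₂
  have : a ∈ f₁.ker ⊓ f₂.ker := ⟨e₁, e₂⟩
  rw [hk, Subgroup.mem_bot] at this
  rw [Subgroup.mem_bot]
  exact Subtype.ext this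

lemma isForm_InD (n : ℕ) : IsForm (fun X _ => InD n X) :=
  isForm_of
    (fun H _ h => by
      have := (h ⊤ Subgroup.IsSubnormal.top).fin
      exact Finite.of_equiv _ (Subgroup.topEquiv (G := H)).toEquiv)
    (fun _ _ _ _ f hf h => h.surj f hf)
    (fun _ _ _ _ _ _ f₁ f₂ h₁ h₂ hk a b => InD.subdirect f₁ f₂ h₁ h₂ hk a b)

/-- Membership in the formation generated by `G`. -/
def InForm (G : Type) [Group G] (X : Type) [Group X] : Prop :=
  ∀ F : ∀ (K : Type) [Group K], Prop, IsForm F → F G → F X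

/-- The class of groups all of whose normal subgroups lie in a formation is a formation. -/
lemma isForm_normal {F : ∀ (H : Type) [Group H], Prop} (hF : IsForm F) :
    IsForm (fun X _ => ∀ N : Subgroup X, N.Normal → F N) :=
  isForm_of
    (fun H _ h => by
      have := hF.fin _ (h ⊤ inferInstance)
      exact Finite.of_equiv _ (Subgroup.topEquiv (G := H)).toEquiv)
    (fun X Y _ _ f hf h N hN => by
      refine hF.surj (f.subgroupComap N) ?_ (h _ (hN.comap f))
      rintro ⟨y, hy⟩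
      obtain ⟨x, rfl⟩ := hf y
      exact ⟨⟨x, hy⟩, rfl⟩)
    (fun X Y₁ Y₂ _ _ _ f₁ f₂ h₁ h₂ hk a b N hN => by
      refine hF.subdirect (f₁.subgroupMap N) (f₂.subgroupMap N) (f₁.subgroupMap_surjective N)
        (f₂.subgroupMap_surjective N) ?_ (a _ (hN.map f₁ h₁)) (b _ (hN.map f₂ h₂))
      rw [eq_bot_iff]
      rintro ⟨a, ha⟩ ⟨h₁, h₂⟩
      have e₁ : f₁ a = 1 := congrArg Subtype.val h₁
      have e₂ : f₂ a = 1 := congrArg Subtype.val h₂
      have : a ∈ f₁.ker ⊓ f₂.ker := ⟨e₁, e₂⟩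
      rw [hk, Subgroup.mem_bot] at this
      rw [Subgroup.mem_bot]
      exact Subtype.ext this)

/-- If every formation containing `G` contains all normal subgroups of `G`, then the formation
generated by `G` is closed under normal subgroups. -/
lemma InForm.normal {G : Type} [Group G]
    (hG : ∀ F : ∀ (K : Type) [Group K], Prop, IsForm F → F G → ∀ N : Subgroup G, N.Normal → F N)
    {X : Type} [Group X] (h : InForm G X) (N : Subgroup X) (hN : N.Normal) : InForm G N := by
  intro F hF hFG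
  exact h _ (isForm_normal hF) (hG F hF hFG) N hN

end Pool.Agent.Helper8Form
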