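import Pool.Agent.Helper8_Form.Good

set_option autoImplicit false
set_option linter.unusedSectionVars false

/-!
The infinite family of formations.
-/

namespace Pool.Agent.Helper8Form

open Subgroup

namespace Sys

variable {A : Type} [Group A] {M : Type} [CommGroup M] (S : Sys A M)

section general

variable {V : Type} [AddCommGroup V] [Fintype V] [DecidableEq V]

lemma goodSub_subnormal {X : Subgroup (S.Q V)} (hX : S.GoodSub X) (Y : Subgroup X)
    (hY : Y.IsSubnormal) : S.GoodSub (Y.map X.subtype) := by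
  induction hY with
  | top =>
    rw [← MonoidHom.range_eq_map, Subgroup.range_subtype]
    exact hX
  | step H K hle hsub hn ih =>
    refine ih.normal S (Subgroup.map_mono hle) ?_
    rw [Subgroup.normal_subgroupOf_iff hle] at hn
    rw [Subgroup.normal_subgroupOf_iff (Subgroup.map_mono hle)]
    rintro _ _ ⟨h, hh, rfl⟩ ⟨k, hk, rfl⟩
    exact ⟨k * h * k⁻¹, hn h k hh hk, rfl⟩

lemma zQ_pow_even {n : ℕ} (h : Even n) : (S.zQ : S.Q V) ^ n = 1 := by
  obtain ⟨r, rfl⟩ := h
  rw [pow_add, ← (Commute.refl (S.zQ : S.Q V)).mul_pow, S.zQ_sq, one_pow]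

lemma m_sq : S.m * S.m = 1 := by
  have h := S.χ_or (S.a₀ * S.a₀)
  rw [map_mul, S.χa₀] at h
  rcases h with h | h
  · exact h
  · exact absurd (mul_eq_left.mp h) S.m_ne

end general

section bits

/-- The index group `(ZMod 2)^k`. -/
abbrev VV (k : ℕ) : Type := Fin k → ZMod 2

lemma even_card {k n : ℕ} (hnk : n < k) (g : Fin n → VV k → A) (hg : ∀ i, g i ∈ S.K (VV k))
    [DecidablePred (fun v : VV k => ∀ i, S.χ (g i v) ≠ 1)] :
    Even (Finset.univ.filter (fun v : VV k => ∀ i, S.χ (g i v) ≠ 1)).card := by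
  classical
  have hcard : Fintype.card (Fin n → Bool) < Fintype.card (VV k) := by
    simp only [VV, Fintype.card_fun, Fintype.card_bool, Fintype.card_fin, ZMod.card]
    exact Nat.pow_lt_pow_right (by norm_num) hnk
  obtain ⟨a, b, hab, he⟩ := Fintype.exists_ne_map_eq_of_card_lt
    (fun v : VV k => fun i : Fin n => decide (S.χ (g i v) = 1)) hcard
  set u := a - b with hu
  have hu0 : u ≠ 0 := sub_ne_zero.mpr hab
  have hψ : ∀ i, S.χ (g i u) = 1 := by
    intro i
    have h₁ : S.χ (g i a) = S.χ (g i u) * S.χ (g i b) := by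
      rw [← hg i, hu, sub_add_cancel]
    have h₂ : decide (S.χ (g i a) = 1) = decide (S.χ (g i b) = 1) := congrFun he i
    have h₃ : S.χ (g i a) = S.χ (g i b) := by
      rw [decide_eq_decide] at h₂
      rcases S.χ_or (g i a) with ha | ha <;> rcases S.χ_or (g i b) with hb | hb
      · rw [ha, hb]
      · exact (absurd (hb.symm.trans (h₂.mp ha)) S.m_ne)
      · exact (absurd (ha.symm.trans (h₂.mpr hb)) S.m_ne)
      · rw [ha, hb]
    rw [h₃] at h₁
    exact (right_eq_mul.mp h₁)
  have hinv : ∀ i v, S.χ (g i (v + u)) = S.χ (g i v) := by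
    intro i v
    rw [hg i, hψ, mul_one]
  have huu : u + u = 0 := by
    funext j
    exact CharTwo.add_self_eq_zero (u j)
  have hsum : ∑ v ∈ Finset.univ.filter (fun v : VV k => ∀ i, S.χ (g i v) ≠ 1), (1 : ZMod 2) = 0 := by
    refine Finset.sum_involution (fun v _ => v + u) ?_ ?_ ?_ ?_
    · intro v _
      exact CharTwo.add_self_eq_zero 1
    · intro v _ _ h
      exact hu0 (add_eq_left.mp h)
    · intro v hv
      rw [Finset.mem_filter] at hv ⊢
      exact ⟨Finset.mem_univ _, fun i => by rw [hinv]; exact hv.2 i⟩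
    · intro v _
      rw [add_assoc, huu, add_zero]
  rw [Finset.sum_const, nsmul_eq_mul, mul_one] at hsum
  rwa [ZMod.natCast_eq_zero_iff_even] at hsum

variable [Finite A]

lemma inC_good {k n : ℕ} (hnk : n + 1 < k) {Y : Subgroup (S.Q (VV k))} (hY : S.GoodSub Y) :
    InC (n + 1) Y := by
  classical
  refine ⟨inferInstance, fun C hC => S.exists_t hY hC, ?_⟩
  intro x t ht l hl hmem
  have hex : ∀ i, ∃ g ∈ S.K (VV k), S.q (VV k) g = x i := fun i => hY.1 (x i).2
  choose g hgK hg using hex
  have := S.law_value hY x g hg t ht l hl hmem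
  rw [S.zQ_pow_even (S.even_card hnk g hgK)] at this
  exact Subtype.ext this

lemma inD_HH {k n : ℕ} (hnk : n + 1 < k) : InD (n + 1) (S.HH (VV k)) := by
  intro Y hY
  have h₁ := S.inC_good hnk (S.goodSub_subnormal S.goodSub_HH Y hY)
  have e : (Y.map (S.HH (VV k)).subtype) ≃* Y :=
    (Y.equivMapOfInjective _ (S.HH (VV k)).subtype_injective).symm
  exact h₁.surj e.toMonoidHom e.surjective

lemma not_inC_HH {n : ℕ} : ¬ InC (n + 1) (S.HH (VV (n + 1))) := by
  classical
  intro h
  have hY : S.GoodSub (S.HH (VV (n + 1))) := S.goodSub_HH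
  let g : Fin (n + 1) → VV (n + 1) → A := fun i v => if v i = 0 then 1 else S.a₀
  have hχ : ∀ i v, S.χ (g i v) = if v i = 0 then 1 else S.m := by
    intro i v
    by_cases hv : v i = 0
    · simp [g, hv]
    · simp [g, hv, S.χa₀]
  have hgK : ∀ i, g i ∈ S.K (VV (n + 1)) := by
    intro i u v
    rw [hχ, hχ, hχ, Pi.add_apply]
    have h01 : ∀ w : ZMod 2, w = 0 ∨ w = 1 := by decide
    rcases h01 (u i) with hu | hu <;> rcases h01 (v i) with hv | hv
    · simp [hu, hv]
    · simp [hu, hv]
    · simp [hu, hv]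
    · have : (1 : ZMod 2) + 1 = 0 := by decide
      simp [hu, hv, this, S.m_sq]
  let x : Fin (n + 1) → S.HH (VV (n + 1)) := fun i => ⟨S.q _ (g i), ⟨g i, hgK i, rfl⟩⟩
  have hex : ∀ C : Subgroup (S.HH (VV (n + 1))), IsPrimeN C →
      ∃ t, t ∈ TC C ∧ t ∉ C ∧ t * t ∈ C := by
    intro C hC
    obtain ⟨t, h₁, h₂, h₃⟩ := h.ex C hC
    exact ⟨t, h₁, h₂, h₃⟩
  choose! t ht using hex
  have hfin := h.fin
  have hJfin : (JJ x).Finite := Set.toFinite _
  have h₁ := h.law x t ht hJfin.toFinset.toList (Finset.nodup_toList _) (by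
    intro C
    rw [Finset.mem_toList, Set.Finite.mem_toFinset])
  have h₂ := S.law_value hY x g (fun i => rfl) t ht hJfin.toFinset.toList
    (Finset.nodup_toList _) (by
    intro C
    rw [Finset.mem_toList, Set.Finite.mem_toFinset])
  rw [h₁] at h₂
  have h₃ : Finset.univ.filter (fun v : VV (n + 1) => ∀ i, S.χ (g i v) ≠ 1) = {fun _ => 1} := by
    ext v
    rw [Finset.mem_filter, Finset.mem_singleton]
    have h01 : ∀ w : ZMod 2, w ≠ 0 → w = 1 := by decide
    constructor
    · rintro ⟨-, hv⟩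
      funext i
      apply h01
      intro h0
      apply hv i
      rw [hχ, if_pos h0]
    · rintro rfl
      refine ⟨Finset.mem_univ _, fun i => ?_⟩
      have h5 := hχ i (fun _ => 1)
      rw [if_neg (by decide)] at h5
      intro h6
      exact S.m_ne (h5.symm.trans h6)
  rw [h₃, Finset.card_singleton, pow_one] at h₂
  exact S.zQ_ne h₂.symm

end bits

section formation

variable [Finite A] {F : ∀ (H : Type) [Group H], Prop}

/-- Coordinate evaluation on `K`. -/
def ev (V : Type) [AddCommGroup V] (v : V) : S.K V →* A := (Pi.evalMonoidHom (fun _ => A) v).comp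
  (S.K V).subtype

include S in
lemma F_card (hF : IsForm F) (hA : F A) (X : Type) [Group X] (hX : Nat.card X = 2) : F X := by
  have h₁ : F (A ⧸ S.χ.ker) := hF.quot A S.χ.ker hA
  have h₂ : Nat.card (A ⧸ S.χ.ker) = 2 := by
    rw [Nat.card_congr (QuotientGroup.quotientKerEquivRange S.χ).toEquiv]
    have : (S.χ.range : Set M) = {1, S.m} := by
      ext y
      constructor
      · rintro ⟨a, rfl⟩
        exact S.χ_or a
      · rintro (rfl | rfl)
        · exact ⟨1, map_one _⟩
        · exact ⟨S.a₀, S.χa₀⟩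
    have h₃ : Nat.card S.χ.range = Set.ncard (S.χ.range : Set M) := rfl
    rw [h₃, this, Set.ncard_pair S.m_ne.symm]
  have : Fact (Nat.Prime 2) := ⟨Nat.prime_two⟩
  exact hF.iso _ _ (mulEquivOfPrimeCardEq (p := 2) h₂ hX) h₁

lemma F_triv (hF : IsForm F) (hA : F A) (X : Type) [Group X] [Subsingleton X] : F X :=
  hF.surj (1 : A →* X) (fun _ => ⟨1, Subsingleton.elim _ _⟩) hA

lemma F_small (hF : IsForm F) (hA : F A) (W : Subgroup A) (hW : ∀ n ∈ W, n = 1 ∨ n = S.z) :
    F W := by
  by_cases hz : S.z ∈ W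
  · apply S.F_card hF hA
    have h₁ : (W : Set A) = {1, S.z} := by
      ext n
      constructor
      · exact hW n
      · rintro (rfl | rfl)
        · exact one_mem W
        · exact hz
    have h₃ : Nat.card W = Set.ncard (W : Set A) := rfl
    rw [h₃, h₁, Set.ncard_pair S.z_ne.symm]
  · have : Subsingleton W := by
      refine ⟨?_⟩
      have : ∀ a : W, a = 1 := by
        rintro ⟨a, ha⟩
        rcases hW a ha with rfl | rfl
        · rfl
        · exact absurd ha hz
      intro a b
      rw [this a, this b]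
    exact F_triv hF hA _

lemma F_normal_A (hF : IsForm F) (hA : F A) (hE : F S.χ.ker) (N : Subgroup A) (hN : N.Normal) :
    F N := by
  rcases S.simple (N ⊓ S.χ.ker) inf_le_right (by
    intro e he n hn
    obtain ⟨h₁, h₂⟩ := Subgroup.mem_inf.mp hn
    exact Subgroup.mem_inf.mpr ⟨hN.conj_mem n h₁ e, mul_mem (mul_mem he h₂) (inv_mem he)⟩) with h | h
  · apply S.F_small hF hA
    have h₁ : N ≤ centralizer (S.χ.ker : Set A) := by
      apply perfect_comm _ _ S.perfect
      intro w hw
      have hw' : w ∈ N ⊓ S.χ.ker := Subgroup.commutator_le_inf _ _ hw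
      rw [Subgroup.mem_centralizer_iff]
      intro e _
      rcases h w hw' with rfl | rfl
      · rw [mul_one, one_mul]
      · exact S.z_comm e
    intro n hn
    apply S.cent
    intro e he
    have := (Subgroup.mem_centralizer_iff.mp (h₁ hn)) e he
    exact this.symm
  · have h₁ : S.χ.ker ≤ N := h.trans inf_le_left
    by_cases h₂ : N ≤ S.χ.ker
    · have : N = S.χ.ker := le_antisymm h₂ h₁
      rw [this]
      exact hE
    · have : N = ⊤ := by
        rw [eq_top_iff]
        intro b _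
        obtain ⟨a, ha, ha'⟩ := Set.not_subset.mp h₂
        have ha'' : S.χ a = S.m := by
          rcases S.χ_or a with h | h
          · exact absurd h ha'
          · exact h
        rcases S.χ_or b with h | h
        · exact h₁ h
        · have : b * a⁻¹ ∈ N := by
            apply h₁
            rw [MonoidHom.mem_ker, map_mul, map_inv, h, ha'', mul_inv_cancel]
          have h₃ := mul_mem this ha
          rwa [inv_mul_cancel_right] at h₃
      rw [this]
      exact hF.iso _ _ Subgroup.topEquiv.symm hA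

lemma F_normal_E (hF : IsForm F) (hA : F A) (hE : F S.χ.ker) (N : Subgroup S.χ.ker)
    (hN : N.Normal) : F N := by
  have e : N ≃* (N.map S.χ.ker.subtype) := N.equivMapOfInjective _ S.χ.ker.subtype_injective
  have h₀ : N.map S.χ.ker.subtype ≤ S.χ.ker := Subgroup.map_subtype_le N
  rcases S.simple (N.map S.χ.ker.subtype) h₀ (by
    rintro e he n ⟨n', hn', rfl⟩
    exact ⟨_, hN.conj_mem n' hn' ⟨e, he⟩, rfl⟩) with h | h
  · exact hF.iso _ _ e.symm (S.F_small hF hA _ h)
  · have : N.map S.χ.ker.subtype = S.χ.ker := le_antisymm h₀ h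
    rw [this] at e
    exact hF.iso _ _ e.symm hE

lemma F_normal_prod (hF : IsForm F) (hG : F (A × S.χ.ker)) (N : Subgroup (A × S.χ.ker))
    (hN : N.Normal) : F N := by
  have hA : F A := hF.surj (MonoidHom.fst A S.χ.ker) (fun a => ⟨(a, 1), rfl⟩) hG
  have hE : F S.χ.ker := hF.surj (MonoidHom.snd A S.χ.ker) (fun a => ⟨(1, a), rfl⟩) hG
  refine hF.subdirect ((MonoidHom.fst A S.χ.ker).subgroupMap N)
    ((MonoidHom.snd A S.χ.ker).subgroupMap N) (MonoidHom.subgroupMap_surjective _ N)
    (MonoidHom.subgroupMap_surjective _ N) ?_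
    (S.F_normal_A hF hA hE _ (hN.map _ (fun a => ⟨(a, 1), rfl⟩)))
    (S.F_normal_E hF hA hE _ (hN.map _ (fun a => ⟨(1, a), rfl⟩)))
  rw [eq_bot_iff]
  rintro ⟨⟨a, b⟩, hab⟩ ⟨h₁, h₂⟩
  have e₁ : a = 1 := congrArg Subtype.val h₁
  have e₂ : b = 1 := congrArg Subtype.val h₂
  rw [Subgroup.mem_bot]
  apply Subtype.ext
  show (a, b) = 1
  rw [e₁, e₂]
  rfl

lemma mulSingle_mem_K {V : Type} [AddCommGroup V] [DecidableEq V] (v : V) {e : A}
    (he : S.χ e = 1) : Pi.mulSingle v e ∈ S.K V := by
  have h : ∀ u, S.χ ((Pi.mulSingle v e : V → A) u) = 1 := by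
    intro u
    by_cases hu : u = v
    · subst hu; rw [Pi.mulSingle_eq_same, he]
    · rw [Pi.mulSingle_eq_of_ne hu, map_one]
  intro u w
  rw [h, h, h, mul_one]

lemma F_ev (hF : IsForm F) (hA : F A) (hE : F S.χ.ker) {k : ℕ} (v : VV k) :
    F (S.K (VV k) ⧸ (S.ev (VV k) v).ker) := by
  by_cases hv : v = 0
  · subst hv
    have h0 : ∀ g : S.K (VV k), S.ev (VV k) 0 g ∈ S.χ.ker := by
      intro g
      have h := g.2 0 0
      rw [add_zero] at h
      have h' : S.χ ((g : VV k → A) 0) = 1 := right_eq_mul.mp h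
      exact h'
    let f : S.K (VV k) →* S.χ.ker := (S.ev (VV k) 0).codRestrict S.χ.ker h0
    have hf : Function.Surjective f := by
      rintro ⟨e, he⟩
      refine ⟨⟨Pi.mulSingle 0 e, S.mulSingle_mem_K 0 he⟩, ?_⟩
      apply Subtype.ext
      show (Pi.mulSingle 0 e : VV k → A) 0 = e
      rw [Pi.mulSingle_eq_same]
    have hk : f.ker = (S.ev (VV k) 0).ker := MonoidHom.ker_codRestrict _ _ _
    have h₁ := hF.iso _ _ (QuotientGroup.quotientKerEquivOfSurjective f hf).symm hE
    exact hF.iso _ _ (QuotientGroup.quotientMulEquivOfEq hk) h₁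
  · obtain ⟨i, hi⟩ : ∃ i, v i ≠ 0 := by
      by_contra h
      push Not at h
      exact hv (funext h)
    have hf : Function.Surjective (S.ev (VV k) v) := by
      intro a
      rcases S.χ_or a with ha | ha
      · refine ⟨⟨Pi.mulSingle v a, S.mulSingle_mem_K v ha⟩, ?_⟩
        show (Pi.mulSingle v a : VV k → A) v = a
        rw [Pi.mulSingle_eq_same]
      · refine ⟨⟨fun u => if u i = 0 then 1 else a, ?_⟩, ?_⟩
        · have hχ : ∀ u : VV k, S.χ (if u i = 0 then 1 else a) = if u i = 0 then 1 else S.m := by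
            intro u
            by_cases hu : u i = 0
            · simp [hu]
            · simp [hu, ha]
          intro u w
          show S.χ (if (u + w) i = 0 then 1 else a) = S.χ (if u i = 0 then 1 else a) *
            S.χ (if w i = 0 then 1 else a)
          rw [hχ, hχ, hχ, Pi.add_apply]
          have h01 : ∀ w : ZMod 2, w = 0 ∨ w = 1 := by decide
          rcases h01 (u i) with hu | hu <;> rcases h01 (w i) with hw | hw
          · simp [hu, hw]
          · simp [hu, hw]
          · simp [hu, hw]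
          · have : (1 : ZMod 2) + 1 = 0 := by decide
            simp [hu, hw, this, S.m_sq]
        · show (if v i = 0 then 1 else a) = a
          rw [if_neg hi]
    exact hF.iso _ _ (QuotientGroup.quotientKerEquivOfSurjective _ hf).symm hA

lemma F_K (hF : IsForm F) (hA : F A) (hE : F S.χ.ker) (k : ℕ) : F (S.K (VV k)) := by
  classical
  have key : ∀ s : Finset (VV k), ∃ N : Subgroup (S.K (VV k)), ∃ _ : N.Normal,
      F (S.K (VV k) ⧸ N) ∧ ∀ g ∈ N, ∀ v ∈ s, (g : VV k → A) v = 1 := by
    intro s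
    induction s using Finset.induction_on with
    | empty =>
      refine ⟨⊤, inferInstance, ?_, ?_⟩
      · have : Subsingleton (S.K (VV k) ⧸ (⊤ : Subgroup (S.K (VV k)))) :=
          QuotientGroup.subsingleton_quotient_top
        exact F_triv hF hA _
      · intro g _ v hv
        exact absurd hv (Finset.notMem_empty v)
    | insert v s hv ih =>
      obtain ⟨N, hN, h₁, h₂⟩ := ih
      refine ⟨N ⊓ (S.ev (VV k) v).ker, inferInstance, ?_, ?_⟩
      · exact hF.sub _ _ _ h₁ (S.F_ev hF hA hE v)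
      · intro g hg u hu
        obtain ⟨hg₁, hg₂⟩ := Subgroup.mem_inf.mp hg
        rw [Finset.mem_insert] at hu
        rcases hu with rfl | hu
        · exact hg₂
        · exact h₂ g hg₁ u hu
  obtain ⟨N, hN, h₁, h₂⟩ := key Finset.univ
  have hbot : N = ⊥ := by
    rw [eq_bot_iff]
    intro g hg
    rw [Subgroup.mem_bot]
    apply Subtype.ext
    funext v
    exact h₂ g hg v (Finset.mem_univ v)
  exact hF.iso _ _ ((QuotientGroup.quotientMulEquivOfEq hbot).trans QuotientGroup.quotientBot) h₁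

lemma inForm_HH (k : ℕ) : InForm (A × S.χ.ker) (S.HH (VV k)) := by
  intro F hF hG
  have hA : F A := hF.surj (MonoidHom.fst A S.χ.ker) (fun a => ⟨(a, 1), rfl⟩) hG
  have hE : F S.χ.ker := hF.surj (MonoidHom.snd A S.χ.ker) (fun a => ⟨(1, a), rfl⟩) hG
  exact hF.surj ((S.q (VV k)).subgroupMap (S.K (VV k))) (MonoidHom.subgroupMap_surjective _ _)
    (S.F_K hF hA hE k)

/-- The formations in the family. -/
def Fam (n : ℕ) : ∀ (H : Type) [Group H], Prop :=
  fun H _ => InD (n + 1) H ∧ InForm (A × S.χ.ker) H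

lemma Fam_injective : Function.Injective S.Fam := by
  have key : ∀ i j, i < j → S.Fam i ≠ S.Fam j := by
    intro i j hij h
    have h₁ : S.Fam i (S.HH (VV (j + 1))) := ⟨S.inD_HH (by omega), S.inForm_HH _⟩
    have h₂ : S.Fam i (S.HH (VV (j + 1))) = S.Fam j (S.HH (VV (j + 1))) := by rw [h]
    rw [h₂] at h₁
    have h₃ := h₁.1 ⊤ Subgroup.IsSubnormal.top
    exact S.not_inC_HH (h₃.surj (Subgroup.topEquiv (G := S.HH (VV (j + 1)))).toMonoidHom
      (Subgroup.topEquiv (G := S.HH (VV (j + 1)))).surjective)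
  intro i j h
  rcases lt_trichotomy i j with h' | h' | h'
  · exact absurd h (key i j h')
  · exact h'
  · exact absurd h.symm (key j i h')

lemma inForm_isForm (G : Type) [Group G] [Finite G] : IsForm (fun X _ => InForm G X) := by
  have hfin : IsForm (fun X _ => Finite X) := isForm_of (fun _ _ h => h)
    (fun X Y _ _ f hf h => Finite.of_surjective f hf)
    (fun X Y₁ Y₂ _ _ _ f₁ f₂ _ _ hk h₁ h₂ => by
      refine Finite.of_injective (fun x => (f₁ x, f₂ x)) ?_
      intro a b hab
      have hab' : f₁ a = f₁ b ∧ f₂ a = f₂ b := by simpa using hab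
      have : a * b⁻¹ ∈ f₁.ker ⊓ f₂.ker := by
        refine Subgroup.mem_inf.mpr ⟨?_, ?_⟩
        · rw [MonoidHom.mem_ker, map_mul, map_inv, hab'.1, mul_inv_cancel]
        · rw [MonoidHom.mem_ker, map_mul, map_inv, hab'.2, mul_inv_cancel]
      rw [hk, Subgroup.mem_bot] at this
      exact mul_inv_eq_one.mp this)
  exact isForm_of (fun H _ h => h _ hfin inferInstance)
    (fun X Y _ _ f hf h F hF hG => hF.surj f hf (h F hF hG))
    (fun X Y₁ Y₂ _ _ _ f₁ f₂ h₁ h₂ hk a b F hF hG =>
      hF.subdirect f₁ f₂ h₁ h₂ hk (a F hF hG) (b F hF hG))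

lemma Fam_isForm (n : ℕ) : IsForm (S.Fam n) := by
  have h₁ := isForm_InD (n + 1)
  have h₂ := inForm_isForm (A × S.χ.ker)
  exact ⟨fun H _ h => h₁.fin H h.1, fun H K _ _ e h => ⟨h₁.iso H K e h.1, h₂.iso H K e h.2⟩,
    fun H _ N _ h => ⟨h₁.quot H N h.1, h₂.quot H N h.2⟩,
    fun H _ N₁ N₂ _ _ a b => ⟨h₁.sub H N₁ N₂ a.1 b.1, h₂.sub H N₁ N₂ a.2 b.2⟩⟩

lemma Fam_normal (n : ℕ) (H : Type) [Group H] (N : Subgroup H) (hN : N.Normal)
    (h : S.Fam n H) : S.Fam n N :=
  ⟨h.1.normal N hN, h.2.normal (fun _ hF hG N hN => S.F_normal_prod hF hG N hN) N hN⟩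

end formation

end Sys

end Pool.Agent.Helper8Form
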