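import Pool.Agent.Helper8_Form.Sys

set_option autoImplicit false
set_option linter.unusedSectionVars false

/-!
Good subgroups of the central product, their prime normal subgroups, and the value of the law.
-/

namespace Pool.Agent.Helper8Form

open Subgroup
open scoped commutatorElement

namespace Sys

variable {A : Type} [Group A] {M : Type} [CommGroup M] (S : Sys A M)
variable {V : Type} [AddCommGroup V] [Fintype V] [DecidableEq V]

variable (V) in
/-- Tuples whose `χ`-values form an additive character of `V`. -/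
def K : Subgroup (V → A) where
  carrier := {g | ∀ u v, S.χ (g (u + v)) = S.χ (g u) * S.χ (g v)}
  mul_mem' := by
    intro a b ha hb u v
    simp only [Pi.mul_apply, map_mul]
    rw [ha, hb]
    exact mul_mul_mul_comm _ _ _ _
  one_mem' := by
    intro u v
    simp
  inv_mem' := by
    intro a ha u v
    simp only [Pi.inv_apply, map_inv]
    rw [ha, mul_inv]

variable (V) in
/-- The groups `H_V`, as subgroups of the ambient quotient. -/
def HH : Subgroup (S.Q V) := (S.K V).map (S.q V)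

/-- Good subgroups: every component is contained in `Y` or centralized by `Y`. -/
def GoodSub (Y : Subgroup (S.Q V)) : Prop := Y ≤ S.HH V ∧ ∀ v, S.T v ≤ Y ∨ Y ≤ S.Cc v

lemma T_le_HH (v : V) : S.T v ≤ S.HH V := by
  rintro x ⟨e, he, rfl⟩
  refine ⟨Pi.mulSingle v e, ?_, rfl⟩
  have he' : S.χ e = 1 := he
  have h : ∀ u, S.χ ((Pi.mulSingle v e : V → A) u) = 1 := by
    intro u
    by_cases hu : u = v
    · subst hu; rw [Pi.mulSingle_eq_same, he']
    · rw [Pi.mulSingle_eq_of_ne hu, map_one]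
  intro u w
  rw [h, h, h, mul_one]

lemma goodSub_HH : S.GoodSub (S.HH V) := ⟨le_rfl, fun v => Or.inl (S.T_le_HH v)⟩

/-- Key dichotomy: a subgroup normalized by `T v` contains `T v` or centralizes it. -/
lemma key_dichotomy (v : V) (W : Subgroup (S.Q V)) (hW : ∀ e ∈ S.T v, ∀ n ∈ W, e * n * e⁻¹ ∈ W) :
    S.T v ≤ W ∨ W ≤ S.Cc v := by
  rcases S.T_simple v (W ⊓ S.T v) inf_le_right (by
    intro e he n hn
    obtain ⟨hn, hn'⟩ := Subgroup.mem_inf.mp hn
    exact Subgroup.mem_inf.mpr ⟨hW e he n hn, mul_mem (mul_mem he hn') (inv_mem he)⟩) with h | h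
  · right
    apply perfect_comm _ _ (S.T_perfect v)
    rw [Subgroup.commutator_le]
    intro w hw t ht
    have h₁ : ⁅w, t⁆ ∈ W ⊓ S.T v := by
      rw [commutatorElement_def]
      refine Subgroup.mem_inf.mpr ⟨?_, ?_⟩
      · have := hW t ht w⁻¹ (inv_mem hw)
        have h₂ := mul_mem hw this
        simpa [mul_assoc] using h₂
      · exact mul_mem ((S.T_normal v).conj_mem t ht w) (inv_mem ht)
    rcases h _ h₁ with h₂ | h₂
    · rw [h₂]; exact one_mem _
    · rw [h₂]; exact S.zQ_mem_Cc v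
  · left
    exact h.trans inf_le_left

lemma GoodSub.normal {Y Y' : Subgroup (S.Q V)} (hY : S.GoodSub Y) (hle : Y' ≤ Y)
    (hn : (Y'.subgroupOf Y).Normal) : S.GoodSub Y' := by
  refine ⟨hle.trans hY.1, fun v => ?_⟩
  rcases hY.2 v with h | h
  · apply S.key_dichotomy
    intro e he n hn'
    have := hn.conj_mem ⟨n, hle hn'⟩ hn' ⟨e, h he⟩
    exact this
  · right
    exact hle.trans h

section primes

variable {Y : Subgroup (S.Q V)}

/-- A normal subgroup of `Y` not centralizing `T v ≤ Y` contains `T v`. -/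
lemma T_le_of_not_le {v : V} (hv : S.T v ≤ Y) (N : Subgroup Y) (hN : N.Normal)
    (h : ¬ N ≤ (S.Cc v).subgroupOf Y) : (S.T v).subgroupOf Y ≤ N := by
  rcases S.key_dichotomy v (N.map Y.subtype) (by
    rintro e he n ⟨n', hn', rfl⟩
    exact ⟨_, hN.conj_mem n' hn' ⟨e, hv he⟩, rfl⟩) with h₁ | h₁
  · intro x hx
    obtain ⟨y, hy, hyx⟩ := h₁ hx
    have : y = x := Subtype.ext hyx
    rwa [← this]
  · exfalso
    apply h
    intro x hx
    exact h₁ ⟨x, hx, rfl⟩

lemma not_T'_le {v : V} (hv : S.T v ≤ Y) :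
    ¬ (S.T v).subgroupOf Y ≤ (S.Cc v).subgroupOf Y := by
  intro h
  apply S.not_T_le_Cc v
  intro x hx
  exact h (x := ⟨x, hv hx⟩) hx

lemma prime_Cc {v : V} (hv : S.T v ≤ Y) : IsPrimeN ((S.Cc v).subgroupOf Y) := by
  refine ⟨inferInstance, ?_, ?_⟩
  · intro h
    apply S.not_T'_le hv
    rw [h]
    exact le_top
  · intro T₁ T₂ h₁ h₂ h
    by_contra hcon
    push Not at hcon
    have e₁ := S.T_le_of_not_le hv T₁ h₁ hcon.1
    have e₂ := S.T_le_of_not_le hv T₂ h₂ hcon.2
    apply S.not_T_le_Cc v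
    have h₃ : ⁅(S.T v).subgroupOf Y, (S.T v).subgroupOf Y⁆ ≤ (S.Cc v).subgroupOf Y :=
      (Subgroup.commutator_mono e₁ e₂).trans h
    have h₄ := Subgroup.map_mono (f := Y.subtype) h₃
    rw [Subgroup.map_commutator, Subgroup.map_subgroupOf_eq_of_le hv, S.T_perfect] at h₄
    exact h₄.trans (by rw [Subgroup.subgroupOf_map_subtype]; exact inf_le_left)

lemma TC_Cc {v : V} (hv : S.T v ≤ Y) :
    TC ((S.Cc v).subgroupOf Y) = (S.T v).subgroupOf Y := by
  apply le_antisymm
  · exact TC_le inferInstance (S.not_T'_le hv)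
  · apply le_sInf
    rintro T ⟨h₁, h₂⟩
    exact S.T_le_of_not_le hv T h₁ h₂

lemma Cc_inj {u v : V} (hu : S.T u ≤ Y) (h : (S.Cc u).subgroupOf Y = (S.Cc v).subgroupOf Y) :
    u = v := by
  by_contra hne
  apply S.not_T'_le hu
  rw [h]
  intro x hx
  exact S.T_le_Cc hne hx

lemma prime_eq (hY : S.GoodSub Y) {C : Subgroup Y} (hC : IsPrimeN C) :
    ∃ v, S.T v ≤ Y ∧ C = (S.Cc v).subgroupOf Y := by
  classical
  have step1 : ∃ v, S.T v ≤ Y ∧ ¬ (S.T v).subgroupOf Y ≤ C := by
    by_contra hcon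
    push Not at hcon
    have key : ∀ (g : V → A), (∀ v, S.χ (g v) = 1) → ∀ hg : S.q V g ∈ Y,
        (⟨S.q V g, hg⟩ : Y) ∈ C := by
      intro g hg1 hg
      have h₁ : S.q V (fun v => if S.T v ≤ Y then g v else 1) ∈ C.map Y.subtype := by
        rw [← Subgroup.mem_comap]
        apply Subgroup.pi_mem_of_mulSingle_mem
        intro v
        rw [Subgroup.mem_comap]
        by_cases hv : S.T v ≤ Y
        · simp only [hv, if_true]
          have h₂ : S.ι v (g v) ∈ S.T v := ⟨g v, hg1 v, rfl⟩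
          exact ⟨⟨S.ι v (g v), hv h₂⟩, hcon v hv h₂, rfl⟩
        · simp only [hv, if_false, Pi.mulSingle_one]
          exact one_mem _
      obtain ⟨a, ha, haeq⟩ := h₁
      have h₂ : ∀ v, ((a⁻¹ * ⟨S.q V g, hg⟩ : Y) : S.Q V) ∈ S.Cc v := by
        intro v
        have e₁ : ((a⁻¹ * ⟨S.q V g, hg⟩ : Y) : S.Q V) =
            S.q V (fun v => if S.T v ≤ Y then 1 else g v) := by
          have haeq' : (a : S.Q V) = S.q V (fun v => if S.T v ≤ Y then g v else 1) := haeq
          push_cast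
          rw [haeq', ← map_inv, ← map_mul]
          congr 1
          funext v
          by_cases hv : S.T v ≤ Y
          · simp [hv]
          · simp [hv]
        by_cases hv : S.T v ≤ Y
        · rw [e₁, mem_Cc]
          simp [hv]
        · rcases hY.2 v with h | h
          · exact absurd h hv
          · exact h (a⁻¹ * ⟨S.q V g, hg⟩ : Y).2
      have h₃ : (a⁻¹ * ⟨S.q V g, hg⟩ : Y) ∈ center Y := by
        rw [Subgroup.mem_center_iff]
        intro w
        rcases S.forall_mem_Cc h₂ with h | h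
        · have : (a⁻¹ * ⟨S.q V g, hg⟩ : Y) = 1 := Subtype.ext h
          rw [this, mul_one, one_mul]
        · apply Subtype.ext
          show (w : S.Q V) * ((a⁻¹ * ⟨S.q V g, hg⟩ : Y) : S.Q V) =
            ((a⁻¹ * ⟨S.q V g, hg⟩ : Y) : S.Q V) * (w : S.Q V)
          rw [h, S.zQ_comm]
      have h₄ := mul_mem ha (center_le_prime hC h₃)
      rwa [mul_inv_cancel_left] at h₄
    have h₁ : ⁅(⊤ : Subgroup Y), (⊤ : Subgroup Y)⁆ ≤ C := by
      rw [Subgroup.commutator_le]
      rintro ⟨a, ha⟩ - ⟨b, hb⟩ -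
      obtain ⟨ga, rfl⟩ := S.q_surj V a
      obtain ⟨gb, rfl⟩ := S.q_surj V b
      have h₂ : ∀ v, S.χ ((⁅ga, gb⁆ : V → A) v) = 1 := by
        intro v
        have : (⁅ga, gb⁆ : V → A) v = ⁅ga v, gb v⁆ := rfl
        rw [this, map_commutatorElement, commutatorElement_eq_one_iff_mul_comm, mul_comm]
      have h₃ : S.q V ⁅ga, gb⁆ ∈ Y := by
        rw [map_commutatorElement, commutatorElement_def]
        exact mul_mem (mul_mem (mul_mem ha hb) (inv_mem ha)) (inv_mem hb)
      have h₄ := key _ h₂ h₃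
      have h₅ : ⁅(⟨S.q V ga, ha⟩ : Y), (⟨S.q V gb, hb⟩ : Y)⁆ = (⟨S.q V ⁅ga, gb⁆, h₃⟩ : Y) :=
        Subtype.ext (by
          show ⁅S.q V ga, S.q V gb⁆ = S.q V ⁅ga, gb⁆
          rw [map_commutatorElement])
      rw [h₅]
      exact h₄
    rcases hC.2.2 ⊤ ⊤ inferInstance inferInstance h₁ with h | h
    · exact hC.2.1 (top_le_iff.mp h)
    · exact hC.2.1 (top_le_iff.mp h)
  obtain ⟨v, hv, hvC⟩ := step1
  refine ⟨v, hv, le_antisymm ?_ ?_⟩
  · by_contra h
    exact hvC (S.T_le_of_not_le hv C hC.1 h)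
  · rcases hC.2.2 ((S.T v).subgroupOf Y) ((S.Cc v).subgroupOf Y) inferInstance inferInstance (by
      rw [(Subgroup.commutator_eq_bot_iff_le_centralizer).mpr]
      · exact bot_le
      · intro x hx
        rw [Subgroup.mem_centralizer_iff]
        intro y hy
        apply Subtype.ext
        rw [Subgroup.coe_mul, Subgroup.coe_mul]
        have h₁ : (y : S.Q V) ∈ S.Cc v := hy
        have h₂ : (x : S.Q V) ∈ S.T v := hx
        rw [Cc, Subgroup.mem_centralizer_iff] at h₁
        exact (h₁ _ h₂).symm) with h | h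
    · exact absurd h hvC
    · exact h

/-- The value of the law on a good subgroup. -/
lemma law_value (hY : S.GoodSub Y) {n : ℕ} (x : Fin (n + 1) → Y) (g : Fin (n + 1) → V → A)
    (hg : ∀ i, S.q V (g i) = x i) (t : Subgroup Y → Y) (ht : GoodT t)
    (l : List (Subgroup Y)) (hl : l.Nodup) (hmem : ∀ C, C ∈ l ↔ C ∈ JJ x)
    [DecidablePred (fun v : V => ∀ i, S.χ (g i v) ≠ 1)] :
    (((l.map (fun C => t C * t C)).prod : Y) : S.Q V) =
      S.zQ ^ (Finset.univ.filter (fun v : V => ∀ i, S.χ (g i v) ≠ 1)).card := by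
  classical
  have h₁ : ∀ C ∈ l, ((t C * t C : Y) : S.Q V) = S.zQ := by
    intro C hC
    have hCp := ((hmem C).mp hC).1
    obtain ⟨v, hv, rfl⟩ := S.prime_eq hY hCp
    obtain ⟨a₁, a₂, a₃⟩ := ht _ hCp
    rw [S.TC_Cc hv] at a₁
    exact S.T_sq a₁ a₂ a₃
  have h₂ : (((l.map (fun C => t C * t C)).prod : Y) : S.Q V) = S.zQ ^ l.length := by
    rw [← Subgroup.coe_subtype, map_list_prod, List.map_map]
    have : (l.map (Y.subtype ∘ fun C => t C * t C)) = l.map (fun _ => (S.zQ : S.Q V)) := by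
      apply List.map_congr_left
      intro C hC
      exact h₁ C hC
    rw [this, List.map_const', List.prod_replicate]
  rw [h₂]
  congr 1
  rw [← List.toFinset_card_of_nodup hl]
  have hTle : ∀ v, (∀ i, S.χ (g i v) ≠ 1) → S.T v ≤ Y := by
    intro v hv
    rcases hY.2 v with h | h
    · exact h
    · exfalso
      apply hv 0
      have h₃ : S.q V (g 0) ∈ S.Cc v := by rw [hg]; exact h (x 0).2
      rw [mem_Cc] at h₃
      rcases h₃ with h₃ | h₃
      · rw [h₃, map_one]
      · rw [h₃, S.χz]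
  have hsup : ∀ v, S.T v ≤ Y → ∀ i, (x i ∈ (S.Cc v).subgroupOf Y ⊔ TC ((S.Cc v).subgroupOf Y) ↔
      S.χ (g i v) = 1) := by
    intro v hv i
    rw [S.TC_Cc hv, ← S.mem_sup, hg]
    constructor
    · intro h
      have h₃ := Subgroup.mem_map_of_mem Y.subtype h
      rw [Subgroup.map_sup, Subgroup.map_subgroupOf_eq_of_le hv,
        Subgroup.subgroupOf_map_subtype] at h₃
      exact (sup_le_sup_right (inf_le_left : S.Cc v ⊓ Y ≤ S.Cc v) (S.T v)) h₃
    · intro h
      rw [Subgroup.mem_sup_of_normal_right] at h ⊢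
      obtain ⟨c, hc, τ, hτ, hcτ⟩ := h
      have hcY : c ∈ Y := by
        have : c = (x i : S.Q V) * τ⁻¹ := by rw [← hcτ, mul_inv_cancel_right]
        rw [this]
        exact mul_mem (x i).2 (inv_mem (hv hτ))
      exact ⟨⟨c, hcY⟩, hc, ⟨τ, hv hτ⟩, hτ, Subtype.ext hcτ⟩
  have h₃ : l.toFinset = (Finset.univ.filter (fun v : V => ∀ i, S.χ (g i v) ≠ 1)).image
      (fun v => (S.Cc v).subgroupOf Y) := by
    ext C
    rw [List.mem_toFinset, hmem, Finset.mem_image]
    constructor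
    · rintro ⟨hC, hC'⟩
      obtain ⟨v, hv, rfl⟩ := S.prime_eq hY hC
      refine ⟨v, ?_, rfl⟩
      rw [Finset.mem_filter]
      refine ⟨Finset.mem_univ _, fun i h => hC' i ?_⟩
      rw [hsup v hv]
      exact h
    · rintro ⟨v, hv, rfl⟩
      rw [Finset.mem_filter] at hv
      have hv' := hTle v hv.2
      refine ⟨S.prime_Cc hv', fun i h => hv.2 i ?_⟩
      rwa [hsup v hv'] at h
  rw [h₃, Finset.card_image_of_injOn]
  intro u hu v hv huv
  rw [Finset.coe_filter] at hu
  exact S.Cc_inj (hTle u hu.2) huv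

lemma exists_t (hY : S.GoodSub Y) {C : Subgroup Y} (hC : IsPrimeN C) :
    ∃ t ∈ TC C, t ∉ C ∧ t * t ∈ C := by
  obtain ⟨v, hv, rfl⟩ := S.prime_eq hY hC
  obtain ⟨t, h₁, h₂, h₃⟩ := S.T_ex v
  refine ⟨⟨t, hv h₁⟩, ?_, h₂, ?_⟩
  · rw [S.TC_Cc hv]; exact h₁
  · show t * t ∈ S.Cc v
    rw [h₃]
    exact S.zQ_mem_Cc v

end primes

end Sys

end Pool.Agent.Helper8Form
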