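import Pool.Agent.Helper8_Form.Final

set_option autoImplicit false

/-!
The concrete example: matrices of determinant `±1` in `GL₂(𝔽₇)`.
-/

namespace Pool.Agent.Helper8Form

open Matrix Matrix.SpecialLinearGroup Subgroup
open scoped MatrixGroups commutatorElement

instance fact7 : Fact (Nat.Prime 7) := ⟨by norm_num⟩

/-- Matrices of determinant `±1`. -/
def AA : Subgroup (GL (Fin 2) (ZMod 7)) where
  carrier := {g | Matrix.GeneralLinearGroup.det g = 1 ∨ Matrix.GeneralLinearGroup.det g = -1}
  mul_mem' := by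
    rintro a b (ha | ha) (hb | hb)
    · left; rw [map_mul, ha, hb, one_mul]
    · right; rw [map_mul, ha, hb, one_mul]
    · right; rw [map_mul, ha, hb, mul_one]
    · left; rw [map_mul, ha, hb]; decide
  one_mem' := by
    left; rw [map_one]
  inv_mem' := by
    rintro a (ha | ha)
    · left; rw [map_inv, ha, inv_one]
    · right; rw [map_inv, ha]; decide

/-- The determinant. -/
def chi : AA →* (ZMod 7)ˣ := Matrix.GeneralLinearGroup.det.comp AA.subtype

/-- The inclusion of the special linear group. -/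
def fSL : SL(2, ZMod 7) →* AA := toGL.codRestrict AA (fun g => by
  left
  apply Units.ext
  show (g : Matrix (Fin 2) (Fin 2) (ZMod 7)).det = 1
  exact g.det_coe)

lemma fSL_injective : Function.Injective fSL := by
  intro a b h
  apply toGL_injective
  exact congrArg Subtype.val h

lemma fSL_surj {g : AA} (hg : chi g = 1) : ∃ s, fSL s = g := by
  have h : (g.1 : Matrix (Fin 2) (Fin 2) (ZMod 7)).det = 1 := congrArg Units.val hg
  refine ⟨⟨(g.1 : Matrix (Fin 2) (Fin 2) (ZMod 7)), h⟩, ?_⟩
  apply Subtype.ext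
  apply Units.ext
  rfl

lemma chi_fSL (s : SL(2, ZMod 7)) : chi (fSL s) = 1 := by
  apply Units.ext
  show (s : Matrix (Fin 2) (Fin 2) (ZMod 7)).det = 1
  exact s.det_coe

lemma range_fSL : fSL.range = chi.ker := by
  ext g
  constructor
  · rintro ⟨s, rfl⟩
    exact chi_fSL s
  · intro hg
    exact fSL_surj hg

lemma perfect_SL : ⁅(⊤ : Subgroup SL(2, ZMod 7)), (⊤ : Subgroup SL(2, ZMod 7))⁆ = ⊤ := by
  have h := SL2.commutator_eq_top (F := ZMod 7) (a := 2) (by decide) (by decide)
  rwa [commutator_def] at h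

lemma sq_eq_one {r : ZMod 7} (h : r ^ 2 = 1) : r = 1 ∨ r = -1 := by
  revert h; revert r; decide

lemma sq_ne_neg_one {r : ZMod 7} : r ^ 2 ≠ -1 := by
  revert r; decide

lemma center_SL {s : SL(2, ZMod 7)} (hs : s ∈ center SL(2, ZMod 7)) : s = 1 ∨ s = -1 := by
  rw [Matrix.SpecialLinearGroup.mem_center_iff] at hs
  obtain ⟨r, hr, hs⟩ := hs
  rw [Fintype.card_fin] at hr
  rcases sq_eq_one hr with rfl | rfl
  · left
    apply Subtype.ext
    rw [← hs]
    simp
  · right
    apply Subtype.ext
    rw [← hs]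
    ext i j
    fin_cases i <;> fin_cases j <;> simp

lemma simple_SL (N : Subgroup SL(2, ZMod 7)) (hN : N.Normal) :
    N ≤ center SL(2, ZMod 7) ∨ N = ⊤ := by
  have hs : IsSimpleGroup PSL(2, ZMod 7) :=
    Matrix.ProjectiveSpecialLinearGroup.rank_two_simple' ⟨2, by decide, by decide⟩
  have hn : (N.map (QuotientGroup.mk' (center SL(2, ZMod 7)))).Normal :=
    hN.map _ (QuotientGroup.mk'_surjective _)
  rcases hs.eq_bot_or_eq_top_of_normal _ hn with h | h
  · left
    rw [Subgroup.map_eq_bot_iff, QuotientGroup.ker_mk'] at h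
    exact h
  · right
    have h₁ : N ⊔ center SL(2, ZMod 7) = ⊤ := by
      have := congrArg (Subgroup.comap (QuotientGroup.mk' (center SL(2, ZMod 7)))) h
      rw [Subgroup.comap_map_eq, QuotientGroup.ker_mk', Subgroup.comap_top] at this
      exact this
    rw [eq_top_iff, ← perfect_SL, Subgroup.commutator_le]
    intro a _ b _
    have ha : a ∈ N ⊔ center SL(2, ZMod 7) := by rw [h₁]; exact Subgroup.mem_top a
    rw [Subgroup.mem_sup_of_normal_right] at ha
    obtain ⟨n, hn, z, hz, rfl⟩ := ha
    rw [Subgroup.mem_center_iff] at hz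
    rw [← QuotientGroup.eq_one_iff]
    have e₁ : ((n * z : SL(2, ZMod 7)) : SL(2, ZMod 7) ⧸ N) = (z : SL(2, ZMod 7) ⧸ N) := by
      rw [QuotientGroup.mk_mul, (QuotientGroup.eq_one_iff n).mpr hn, one_mul]
    have e₂ : ((⁅n * z, b⁆ : SL(2, ZMod 7)) : SL(2, ZMod 7) ⧸ N) =
        ⁅((n * z : SL(2, ZMod 7)) : SL(2, ZMod 7) ⧸ N), (b : SL(2, ZMod 7) ⧸ N)⁆ := rfl
    rw [e₂, e₁, commutatorElement_eq_one_iff_mul_comm, ← QuotientGroup.mk_mul,
      ← QuotientGroup.mk_mul, hz b]

/-- Every matrix of determinant one squaring to the identity is `±1`. -/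
lemma invol_aux : ∀ a b c d : ZMod 7, a * d - b * c = 1 → a * a + b * c = 1 →
    a * b + b * d = 0 → c * a + d * c = 0 → c * b + d * d = 1 →
    (a = 1 ∧ b = 0 ∧ c = 0 ∧ d = 1) ∨ (a = -1 ∧ b = 0 ∧ c = 0 ∧ d = -1) := by
  decide

lemma invol_SL (s : SL(2, ZMod 7)) (h : s * s = 1) : s = 1 ∨ s = -1 := by
  have hd : s.1 0 0 * s.1 1 1 - s.1 0 1 * s.1 1 0 = 1 := by
    rw [← Matrix.det_fin_two]
    exact s.det_coe
  have hm : s.1 * s.1 = 1 := congrArg Subtype.val h
  have h00 := congrFun (congrFun hm 0) 0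
  have h01 := congrFun (congrFun hm 0) 1
  have h10 := congrFun (congrFun hm 1) 0
  have h11 := congrFun (congrFun hm 1) 1
  simp only [Matrix.mul_apply, Fin.sum_univ_two, Matrix.one_apply_eq] at h00 h11
  simp only [Matrix.mul_apply, Fin.sum_univ_two] at h01 h10
  rw [Matrix.one_apply_ne (by decide)] at h01 h10
  rcases invol_aux _ _ _ _ hd h00 h01 h10 h11 with ⟨a, b, c, d⟩ | ⟨a, b, c, d⟩
  · left
    apply Subtype.ext
    ext i j
    fin_cases i <;> fin_cases j
    · simpa using a
    · simpa using b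
    · simpa using c
    · simpa using d
  · right
    apply Subtype.ext
    ext i j
    fin_cases i <;> fin_cases j
    · simpa using a
    · simpa using b
    · simpa using c
    · simpa using d

/-- Upper unipotent. -/
def UU : SL(2, ZMod 7) := ⟨!![1, 1; 0, 1], by simp⟩

/-- Lower unipotent. -/
def LL : SL(2, ZMod 7) := ⟨!![1, 0; 1, 1], by simp⟩

/-- A rotation of order four. -/
def RR : SL(2, ZMod 7) := ⟨!![0, 1; -1, 0], by simp⟩

/-- The reflection. -/
def refl7 : GL (Fin 2) (ZMod 7) :=
  ⟨!![1, 0; 0, -1], !![1, 0; 0, -1], by ext i j; fin_cases i <;> fin_cases j <;> simp,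
    by ext i j; fin_cases i <;> fin_cases j <;> simp⟩

lemma det_refl7 : Matrix.GeneralLinearGroup.det refl7 = -1 := by
  apply Units.ext
  show (!![1, 0; 0, -1] : Matrix (Fin 2) (Fin 2) (ZMod 7)).det = -1
  simp [Matrix.det_fin_two]

lemma cent_AA (a : AA) (h : ∀ e, chi e = 1 → a * e = e * a) : a = 1 ∨ a = fSL (-1) := by
  have hU := congrArg (fun x : AA => (x.1 : Matrix (Fin 2) (Fin 2) (ZMod 7)))
    (h (fSL UU) (chi_fSL UU))
  have hL := congrArg (fun x : AA => (x.1 : Matrix (Fin 2) (Fin 2) (ZMod 7)))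
    (h (fSL LL) (chi_fSL LL))
  have hU' : (a.1 : Matrix (Fin 2) (Fin 2) (ZMod 7)) * !![1, 1; 0, 1] =
    !![1, 1; 0, 1] * (a.1 : Matrix (Fin 2) (Fin 2) (ZMod 7)) := hU
  have hL' : (a.1 : Matrix (Fin 2) (Fin 2) (ZMod 7)) * !![1, 0; 1, 1] =
    !![1, 0; 1, 1] * (a.1 : Matrix (Fin 2) (Fin 2) (ZMod 7)) := hL
  set m := (a.1 : Matrix (Fin 2) (Fin 2) (ZMod 7)) with hm
  have e1 := congrFun (congrFun hU' 0) 0
  have e2 := congrFun (congrFun hU' 0) 1
  have e3 := congrFun (congrFun hL' 0) 0
  simp only [Matrix.mul_apply, Fin.sum_univ_two, Matrix.of_apply, Matrix.cons_val', Matrix.cons_val_zero,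
    Matrix.cons_val_one, Matrix.cons_val_fin_one, mul_one, mul_zero, one_mul,
    zero_mul, add_zero] at e1 e2 e3
  have h10 : m 1 0 = 0 := by simpa using e1.symm
  have h01 : m 0 1 = 0 := by simpa using e3
  have h11 : m 0 0 = m 1 1 := by
    rw [h01] at e2
    simpa using e2
  have hdet : m 0 0 ^ 2 = 1 ∨ m 0 0 ^ 2 = -1 := by
    have hd : m.det = m 0 0 ^ 2 := by
      rw [Matrix.det_fin_two, h10, h01, ← h11]
      ring
    rcases a.2 with ha | ha
    · left
      rw [← hd]
      exact congrArg Units.val ha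
    · right
      rw [← hd]
      exact congrArg Units.val ha
  rcases hdet with hd | hd
  · rcases sq_eq_one hd with h0 | h0
    · left
      apply Subtype.ext
      apply Units.ext
      show m = 1
      ext i j
      fin_cases i <;> fin_cases j
      · simpa using h0
      · simpa using h01
      · simpa using h10
      · simpa [← h11] using h0
    · right
      apply Subtype.ext
      apply Units.ext
      show m = -1
      ext i j
      fin_cases i <;> fin_cases j
      · simpa using h0
      · simpa using h01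
      · simpa using h10
      · simpa [← h11] using h0
  · exact absurd hd sq_ne_neg_one

lemma fSL_neg_one_ne : fSL (-1) ≠ 1 := by
  intro h
  have : (-1 : SL(2, ZMod 7)) = 1 := fSL_injective (h.trans (map_one _).symm)
  have h2 := congrArg (fun s : SL(2, ZMod 7) => s.1 0 0) this
  simp at h2
  revert h2
  decide

/-- The concrete system. -/
def sys7 : Sys AA (ZMod 7)ˣ where
  χ := chi
  m := -1
  m_ne := by decide
  χ_or := fun a => a.2
  a₀ := ⟨refl7, Or.inr det_refl7⟩
  χa₀ := det_refl7
  z := fSL (-1)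
  z_ne := fSL_neg_one_ne
  z_sq := by rw [← map_mul]; simp
  z_comm := by
    intro a
    apply Subtype.ext
    apply Units.ext
    show (a.1 : Matrix (Fin 2) (Fin 2) (ZMod 7)) * (-1) = (-1) * (a.1 : Matrix (Fin 2) (Fin 2) (ZMod 7))
    simp
  χz := chi_fSL _
  perfect := by
    rw [← range_fSL, MonoidHom.range_eq_map, ← Subgroup.map_commutator, perfect_SL]
  simple := by
    intro N hN hN'
    have hn : (N.comap fSL).Normal := by
      refine ⟨fun n hn g => ?_⟩
      rw [Subgroup.mem_comap, map_mul, map_mul, map_inv]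
      exact hN' _ (chi_fSL g) _ hn
    rcases simple_SL _ hn with h | h
    · left
      intro n hnN
      obtain ⟨s, rfl⟩ := fSL_surj (hN hnN)
      rcases center_SL (h hnN) with rfl | rfl
      · left; exact map_one _
      · right; rfl
    · right
      intro n hn'
      obtain ⟨s, rfl⟩ := fSL_surj hn'
      have : s ∈ N.comap fSL := by rw [h]; exact Subgroup.mem_top s
      exact this
  t_ex := by
    refine ⟨fSL RR, chi_fSL _, ?_, ?_, ?_⟩
    · intro h
      have : RR = 1 := fSL_injective (h.trans (map_one _).symm)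
      have h2 := congrArg (fun s : SL(2, ZMod 7) => s.1 0 0) this
      simp [RR] at h2
    · intro h
      have : RR = -1 := fSL_injective h
      have h2 := congrArg (fun s : SL(2, ZMod 7) => s.1 0 0) this
      simp [RR] at h2
    · rw [← map_mul]
      congr 1
      apply Subtype.ext
      show (!![0, 1; -1, 0] : Matrix (Fin 2) (Fin 2) (ZMod 7)) * !![0, 1; -1, 0] = -1
      ext i j
      fin_cases i <;> fin_cases j <;> simp
  t_sq := by
    intro t ht htt
    obtain ⟨s, rfl⟩ := fSL_surj ht
    rw [← map_mul] at htt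
    rcases invol_SL s (fSL_injective (htt.trans (map_one _).symm)) with rfl | rfl
    · left; exact map_one _
    · right; rfl
  cent := cent_AA

end Pool.Agent.Helper8Form
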