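import Pool.Agent.Helper8_Form.Basic

set_option autoImplicit false
set_option linter.unusedSectionVars false

/-!
The central-product construction: from a group `A` with an index-two perfect subgroup `χ.ker`
with centre `{1, z}` we build the central products of copies of `χ.ker` indexed by `V`, extended
by the additive characters of `V`.
-/

namespace Pool.Agent.Helper8Form

open Subgroup

/-- The data needed for the construction. -/
structure Sys (A : Type) [Group A] (M : Type) [CommGroup M] where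
  χ : A →* M
  m : M
  m_ne : m ≠ 1
  χ_or : ∀ a, χ a = 1 ∨ χ a = m
  a₀ : A
  χa₀ : χ a₀ = m
  z : A
  z_ne : z ≠ 1
  z_sq : z * z = 1
  z_comm : ∀ a, a * z = z * a
  χz : χ z = 1
  perfect : ⁅χ.ker, χ.ker⁆ = χ.ker
  simple : ∀ N : Subgroup A, N ≤ χ.ker → (∀ e ∈ χ.ker, ∀ n ∈ N, e * n * e⁻¹ ∈ N) →
    (∀ n ∈ N, n = 1 ∨ n = z) ∨ χ.ker ≤ N
  t_ex : ∃ t, χ t = 1 ∧ t ≠ 1 ∧ t ≠ z ∧ t * t = z
  t_sq : ∀ t, χ t = 1 → t * t = 1 → t = 1 ∨ t = z
  cent : ∀ a, (∀ e, χ e = 1 → a * e = e * a) → a = 1 ∨ a = z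

/-- A perfect subgroup commuting with its commutator with `S` commutes with `S`. -/
lemma perfect_comm {G : Type} [Group G] (T S : Subgroup G) (hT : ⁅T, T⁆ = T)
    (h : ⁅S, T⁆ ≤ centralizer (T : Set G)) : S ≤ centralizer (T : Set G) := by
  have h₁ : ⁅⁅S, T⁆, T⁆ = ⊥ := by rwa [Subgroup.commutator_eq_bot_iff_le_centralizer]
  have h₂ : ⁅⁅T, S⁆, T⁆ = ⊥ := by rw [Subgroup.commutator_comm T S]; exact h₁
  have h₃ : ⁅⁅T, T⁆, S⁆ = ⊥ := Subgroup.commutator_commutator_eq_bot_of_rotate h₂ h₁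
  rw [hT, Subgroup.commutator_comm, Subgroup.commutator_eq_bot_iff_le_centralizer] at h₃
  exact h₃

lemma center_le_prime {X : Type} [Group X] {C : Subgroup X} (hC : IsPrimeN C) :
    center X ≤ C := by
  rcases hC.2.2 (center X) ⊤ inferInstance inferInstance (by
    rw [(Subgroup.commutator_eq_bot_iff_le_centralizer).mpr]
    · exact bot_le
    · simp [Subgroup.centralizer_univ]) with h | h
  · exact h
  · exact absurd (top_le_iff.mp h) hC.2.1

namespace Sys

variable {A : Type} [Group A] {M : Type} [CommGroup M] (S : Sys A M)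

lemma zpow_even {n : ℤ} (h : Even n) : S.z ^ n = 1 := by
  obtain ⟨r, rfl⟩ := h
  rw [zpow_add, ← (Commute.refl S.z).mul_zpow, S.z_sq, one_zpow]

lemma zpow_odd {n : ℤ} (h : Odd n) : S.z ^ n = S.z := by
  obtain ⟨r, rfl⟩ := h
  rw [zpow_add, S.zpow_even (even_two_mul r), one_mul, zpow_one]

lemma zpow_eq_one {n : ℤ} : S.z ^ n = 1 ↔ Even n := by
  constructor
  · intro h
    by_contra h'
    rw [Int.not_even_iff_odd] at h'
    rw [S.zpow_odd h'] at h
    exact S.z_ne h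
  · exact S.zpow_even

lemma zpow_comm (n : ℤ) (a : A) : a * S.z ^ n = S.z ^ n * a := by
  rcases Int.even_or_odd n with h | h
  · rw [S.zpow_even h, mul_one, one_mul]
  · rw [S.zpow_odd h, S.z_comm]

lemma zpow_or (n : ℤ) : S.z ^ n = 1 ∨ S.z ^ n = S.z := by
  rcases Int.even_or_odd n with h | h
  · left; exact S.zpow_even h
  · right; exact S.zpow_odd h

variable (V : Type) [AddCommGroup V] [Fintype V] [DecidableEq V]

/-- Tuples with values in `{1, z}` and an even number of `z`'s. -/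
def N₀ : Subgroup (V → A) where
  carrier := {g | ∃ c : V → ℤ, Even (∑ v, c v) ∧ ∀ v, g v = S.z ^ (c v)}
  mul_mem' := by
    rintro a b ⟨c, hc, ha⟩ ⟨d, hd, hb⟩
    refine ⟨fun v => c v + d v, ?_, fun v => ?_⟩
    · rw [Finset.sum_add_distrib]; exact hc.add hd
    · rw [Pi.mul_apply, ha, hb, zpow_add]
  one_mem' := ⟨fun _ => 0, by simp, fun v => by simp⟩
  inv_mem' := by
    rintro a ⟨c, hc, ha⟩
    refine ⟨fun v => - c v, ?_, fun v => ?_⟩
    · rw [Finset.sum_neg_distrib]; exact hc.neg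
    · rw [Pi.inv_apply, ha, zpow_neg]

instance N₀_normal : (S.N₀ V).Normal := by
  refine ⟨?_⟩
  rintro n ⟨c, hc, hn⟩ g
  refine ⟨c, hc, fun v => ?_⟩
  rw [Pi.mul_apply, Pi.mul_apply, hn, S.zpow_comm, Pi.inv_apply, mul_inv_cancel_right]

/-- The ambient quotient group. -/
abbrev Q : Type := (V → A) ⧸ (S.N₀ V)

/-- The quotient map. -/
abbrev q : (V → A) →* S.Q V := QuotientGroup.mk' (S.N₀ V)

lemma q_surj : Function.Surjective (S.q V) := QuotientGroup.mk'_surjective _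

lemma q_eq_one {g : V → A} : S.q V g = 1 ↔ g ∈ S.N₀ V := by
  rw [← MonoidHom.mem_ker, QuotientGroup.ker_mk']

variable {V}

lemma mem_N₀ {g : V → A} :
    g ∈ S.N₀ V ↔ ∃ c : V → ℤ, Even (∑ v, c v) ∧ ∀ v, g v = S.z ^ (c v) := Iff.rfl

/-- The inclusion of a coordinate. -/
def ι (v : V) : A →* S.Q V := (S.q V).comp (MonoidHom.mulSingle (fun _ => A) v)

lemma ι_apply (v : V) (a : A) : S.ι v a = S.q V (Pi.mulSingle v a) := rfl

lemma mulSingle_mem_N₀ {v : V} {a : A} (h : Pi.mulSingle v a ∈ S.N₀ V) : a = 1 := by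
  obtain ⟨c, hc, h⟩ := h
  have h₁ : ∀ u, u ≠ v → Even (c u) := by
    intro u hu
    have := h u
    rw [Pi.mulSingle_eq_of_ne hu] at this
    exact (S.zpow_eq_one).mp this.symm
  have h₂ : Even (c v) := by
    rw [← Finset.add_sum_erase _ _ (Finset.mem_univ v)] at hc
    have h₃ : Even (∑ x ∈ Finset.univ.erase v, c x) := by
      apply Finset.even_sum
      intro u hu
      exact h₁ u (Finset.ne_of_mem_erase hu)
    rw [Int.even_add] at hc
    exact hc.mpr h₃
  have := h v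
  rwa [Pi.mulSingle_eq_same, S.zpow_even h₂] at this

lemma ι_injective (v : V) : Function.Injective (S.ι v) := by
  rw [injective_iff_map_eq_one]
  intro a ha
  rw [ι_apply, q_eq_one] at ha
  exact S.mulSingle_mem_N₀ ha

lemma ι_z (u v : V) : S.ι u S.z = S.ι v S.z := by
  by_cases huv : u = v
  · rw [huv]
  have : S.ι u S.z * (S.ι v S.z)⁻¹ = 1 := by
    rw [ι_apply, ι_apply, ← map_inv, ← map_mul, q_eq_one]
    refine ⟨fun w => (if w = u then 1 else 0) + (if w = v then -1 else 0), ?_, ?_⟩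
    · rw [Finset.sum_add_distrib]
      simp
    · intro w
      by_cases h₁ : w = u
      · subst h₁
        simp [huv]
      · by_cases h₂ : w = v
        · subst h₂
          simp [h₁]
        · simp [h₁, h₂]
  exact mul_inv_eq_one.mp this

/-- The central involution. -/
def zQ : S.Q V := S.ι 0 S.z

lemma ι_z' (v : V) : S.ι v S.z = S.zQ := S.ι_z v 0

lemma zQ_ne : (S.zQ : S.Q V) ≠ 1 := by
  intro h
  exact S.z_ne (S.ι_injective 0 (h.trans (map_one _).symm))

lemma zQ_sq : (S.zQ : S.Q V) * S.zQ = 1 := by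
  rw [zQ, ← map_mul, S.z_sq, map_one]

lemma zQ_comm (x : S.Q V) : x * S.zQ = S.zQ * x := by
  obtain ⟨g, rfl⟩ := S.q_surj V x
  rw [zQ, ι_apply, ← map_mul, ← map_mul]
  congr 1
  funext v
  rw [Pi.mul_apply, Pi.mul_apply]
  by_cases hv : v = 0
  · subst hv; rw [Pi.mulSingle_eq_same, S.z_comm]
  · rw [Pi.mulSingle_eq_of_ne hv]; simp

/-- The components. -/
def T (v : V) : Subgroup (S.Q V) := S.χ.ker.map (S.ι v)

lemma mem_T {v : V} {x : S.Q V} : x ∈ S.T v ↔ ∃ e, S.χ e = 1 ∧ S.ι v e = x := Iff.rfl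

instance T_normal (v : V) : (S.T v).Normal := by
  refine ⟨?_⟩
  rintro n ⟨e, he, rfl⟩ x
  obtain ⟨g, rfl⟩ := S.q_surj V x
  have he' : S.χ e = 1 := he
  refine ⟨g v * e * (g v)⁻¹, ?_, ?_⟩
  · show S.χ _ = 1
    rw [map_mul, map_mul, he', mul_one, ← map_mul, mul_inv_cancel, map_one]
  · rw [ι_apply, ι_apply, ← map_inv, ← map_mul, ← map_mul]
    congr 1
    funext u
    rw [Pi.mul_apply, Pi.mul_apply, Pi.inv_apply]
    by_cases hu : u = v
    · subst hu; rw [Pi.mulSingle_eq_same, Pi.mulSingle_eq_same]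
    · rw [Pi.mulSingle_eq_of_ne hu, Pi.mulSingle_eq_of_ne hu]; simp

/-- The centralizers of the components. -/
def Cc (v : V) : Subgroup (S.Q V) := centralizer (S.T v : Set (S.Q V))

lemma mem_Cc {v : V} {g : V → A} : S.q V g ∈ S.Cc v ↔ g v = 1 ∨ g v = S.z := by
  rw [Cc, Subgroup.mem_centralizer_iff]
  constructor
  · intro h
    apply S.cent
    intro e he
    have h₁ := h (S.ι v e) ⟨e, he, rfl⟩
    rw [ι_apply, ← map_mul, ← map_mul] at h₁
    have h₂ : S.q V (Pi.mulSingle v (e * g v * (g v * e)⁻¹)) = 1 := by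
      have h₃ : S.q V ((Pi.mulSingle v e * g) * (g * Pi.mulSingle v e)⁻¹) = 1 := by
        rw [map_mul, h₁, map_inv, mul_inv_cancel]
      rw [← h₃]
      congr 1
      funext u
      by_cases hu : u = v
      · subst hu; simp
      · simp [hu]
    rw [q_eq_one] at h₂
    have h₄ := S.mulSingle_mem_N₀ h₂
    exact (mul_inv_eq_one.mp h₄).symm
  · rintro h y ⟨e, he, rfl⟩
    rw [ι_apply, ← map_mul, ← map_mul]
    congr 1
    funext u
    rw [Pi.mul_apply, Pi.mul_apply]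
    by_cases hu : u = v
    · subst hu
      rw [Pi.mulSingle_eq_same]
      rcases h with h | h
      · rw [h]; simp
      · rw [h, S.z_comm]
    · rw [Pi.mulSingle_eq_of_ne hu]; simp

instance Cc_normal (v : V) : (S.Cc v).Normal := by
  unfold Cc
  infer_instance

lemma T_le_Cc {u v : V} (h : u ≠ v) : S.T u ≤ S.Cc v := by
  rintro x ⟨e, he, rfl⟩
  rw [ι_apply, mem_Cc, Pi.mulSingle_eq_of_ne h.symm]
  left; rfl

lemma zQ_mem_T (v : V) : S.zQ ∈ S.T v := ⟨S.z, S.χz, S.ι_z' v⟩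

lemma mem_T_Cc {v : V} {x : S.Q V} (h₁ : x ∈ S.T v) (h₂ : x ∈ S.Cc v) : x = 1 ∨ x = S.zQ := by
  obtain ⟨e, he, rfl⟩ := h₁
  rw [ι_apply, mem_Cc, Pi.mulSingle_eq_same] at h₂
  rcases h₂ with rfl | rfl
  · left; exact map_one _
  · right; exact S.ι_z' v

lemma T_perfect (v : V) : ⁅S.T v, S.T v⁆ = S.T v := by
  rw [T, ← Subgroup.map_commutator, S.perfect]

lemma T_simple (v : V) (N : Subgroup (S.Q V)) (hN : N ≤ S.T v)
    (hN' : ∀ e ∈ S.T v, ∀ n ∈ N, e * n * e⁻¹ ∈ N) :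
    (∀ n ∈ N, n = 1 ∨ n = S.zQ) ∨ S.T v ≤ N := by
  have key := S.simple (N.comap (S.ι v) ⊓ S.χ.ker) inf_le_right (by
    rintro e he n hn
    obtain ⟨hn, hn'⟩ := Subgroup.mem_inf.mp hn
    refine Subgroup.mem_inf.mpr ⟨?_, ?_⟩
    · show S.ι v (e * n * e⁻¹) ∈ N
      rw [map_mul, map_mul, map_inv]
      exact hN' _ ⟨e, he, rfl⟩ _ hn
    · exact mul_mem (mul_mem he hn') (inv_mem he))
  rcases key with h | h
  · left
    intro n hn
    obtain ⟨e, he, rfl⟩ := hN hn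
    rcases h e ⟨hn, he⟩ with rfl | rfl
    · left; exact map_one _
    · right; exact S.ι_z' v
  · right
    rintro x ⟨e, he, rfl⟩
    exact (h he).1

lemma T_ex (v : V) : ∃ t ∈ S.T v, t ∉ S.Cc v ∧ t * t = S.zQ := by
  obtain ⟨t, h₁, h₂, h₃, h₄⟩ := S.t_ex
  refine ⟨S.ι v t, ⟨t, h₁, rfl⟩, ?_, ?_⟩
  · rw [ι_apply, mem_Cc, Pi.mulSingle_eq_same]
    rintro (h | h)
    · exact h₂ h
    · exact h₃ h
  · rw [← map_mul, h₄, S.ι_z']

lemma zQ_mem_Cc (v : V) : S.zQ ∈ S.Cc v := by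
  rw [← S.ι_z' v, ι_apply, mem_Cc, Pi.mulSingle_eq_same]
  right; rfl

lemma T_sq {v : V} {t : S.Q V} (h₁ : t ∈ S.T v) (h₂ : t ∉ S.Cc v) (h₃ : t * t ∈ S.Cc v) :
    t * t = S.zQ := by
  rcases S.mem_T_Cc (mul_mem h₁ h₁) h₃ with h | h
  · exfalso
    apply h₂
    obtain ⟨e, he, rfl⟩ := h₁
    rw [← map_mul, ← map_one (S.ι v)] at h
    have := S.ι_injective v h
    rw [ι_apply, mem_Cc, Pi.mulSingle_eq_same]
    exact S.t_sq e he this
  · exact h

lemma not_T_le_Cc (v : V) : ¬ S.T v ≤ S.Cc v := by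
  obtain ⟨t, h₁, h₂, -⟩ := S.T_ex v
  exact fun h => h₂ (h h₁)

lemma mem_sup {v : V} {g : V → A} : S.q V g ∈ S.Cc v ⊔ S.T v ↔ S.χ (g v) = 1 := by
  constructor
  · intro h
    rw [Subgroup.mem_sup_of_normal_right] at h
    obtain ⟨y, hy, w, ⟨e, he, rfl⟩, hyw⟩ := h
    obtain ⟨g', rfl⟩ := S.q_surj V y
    rw [mem_Cc] at hy
    have he' : S.χ e = 1 := he
    rw [ι_apply, ← map_mul] at hyw
    have h₁ : S.q V (g' * Pi.mulSingle v e * g⁻¹) = 1 := by
      rw [map_mul, hyw, map_inv, mul_inv_cancel]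
    rw [q_eq_one] at h₁
    obtain ⟨c, -, hc⟩ := h₁
    have h₂ := hc v
    rw [Pi.mul_apply, Pi.mul_apply, Pi.mulSingle_eq_same, Pi.inv_apply] at h₂
    have h₃ := congrArg S.χ h₂
    rw [map_mul, map_mul, he', mul_one, map_inv, map_zpow, S.χz, one_zpow] at h₃
    have h₄ : S.χ (g' v) = 1 := by
      rcases hy with h | h
      · rw [h, map_one]
      · rw [h, S.χz]
    rw [h₄, one_mul, inv_eq_one] at h₃
    exact h₃
  · intro h
    rw [Subgroup.mem_sup_of_normal_right]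
    refine ⟨S.q V (g * Pi.mulSingle v (g v)⁻¹), ?_, S.ι v (g v), ⟨g v, h, rfl⟩, ?_⟩
    · rw [mem_Cc, Pi.mul_apply, Pi.mulSingle_eq_same, mul_inv_cancel]
      left; rfl
    · rw [ι_apply, ← map_mul]
      congr 1
      funext u
      by_cases hu : u = v
      · subst hu; simp
      · simp [hu]

lemma forall_mem_Cc {x : S.Q V} (h : ∀ v, x ∈ S.Cc v) : x = 1 ∨ x = S.zQ := by
  obtain ⟨g, rfl⟩ := S.q_surj V x
  have h' : ∀ v, ∃ c : ℤ, g v = S.z ^ c := by
    intro v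
    rcases (S.mem_Cc).mp (h v) with h | h
    · exact ⟨0, by rw [h, zpow_zero]⟩
    · exact ⟨1, by rw [h, zpow_one]⟩
  choose c hc using h'
  rcases Int.even_or_odd (∑ v, c v) with he | ho
  · left
    rw [q_eq_one]
    exact ⟨c, he, hc⟩
  · right
    rw [← mul_inv_eq_one, zQ, ι_apply, ← map_inv, ← map_mul, q_eq_one]
    refine ⟨fun v => c v + (if v = 0 then -1 else 0), ?_, ?_⟩
    · rw [Finset.sum_add_distrib]
      simp only [Finset.sum_ite_eq', Finset.mem_univ, if_true]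
      exact ho.add_odd (by decide)
    · intro v
      rw [Pi.mul_apply, Pi.inv_apply, hc, zpow_add]
      by_cases hv : v = 0
      · subst hv; simp
      · simp [hv]

end Sys

end Pool.Agent.Helper8Form
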